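import Mathlib

/-!
# The algebraic condition on the conic, MP_1e2239_co

`X, Y, Z` stand for `g, g ^ q, g ^ (q ^ 2)`.
-/

open Polynomial

namespace Pool.Agent.Sgq

section Ring

variable {R S : Type*} [CommRing R] [CommRing S]

/-- The vector orthogonal to `1` and `g ^ (2 q + 1)`. -/
def ya (X Y Z : R) : R := Z ^ 2 * Y - X ^ 2 * Z

/-- `M` times the vector orthogonal to `1` and `g ^ (2 q - 1)`, `M = X Y Z`. -/
def yb (X Y Z : R) : R := X * (Z ^ 3 - X ^ 2 * Y)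

/-- The trace of the product of `(a, b, c)` and `ya`. -/
def ts (X Y Z a b c : R) : R := a * ya X Y Z + b * ya Y Z X + c * ya Z X Y

/-- `ts` for `g ^ (2 q - 1)`, times `M`. -/
def tA (X Y Z : R) : R := ts X Y Z (Y ^ 3 * Z) (Z ^ 3 * X) (X ^ 3 * Y)

/-- `ts` for `g ^ (2 q - 2)`, times `M ^ 2`. -/
def tB (X Y Z : R) : R := ts X Y Z (Y ^ 4 * Z ^ 2) (Z ^ 4 * X ^ 2) (X ^ 4 * Y ^ 2)

/-- `ts` for `g ^ i`. -/
def ti (i : ℕ) (X Y Z : R) : R := ts X Y Z (X ^ i) (Y ^ i) (Z ^ i)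

/-- `ts` for `g ^ (2 q)`. -/
def tq (X Y Z : R) : R := ts X Y Z (Y ^ 2) (Z ^ 2) (X ^ 2)

/-- The contribution of the gap `2 q + 1`. -/
def U (X Y Z : R) : R :=
  ya X Y Z * ((X * Y * Z) ^ 3 * ti 1 X Y Z * ti 2 X Y Z * ti 3 X Y Z * X +
    (X * Y * Z) * ti 2 X Y Z * ti 3 X Y Z * tB X Y Z * X ^ 2 +
    ti 3 X Y Z * tB X Y Z * tA X Y Z * X ^ 3 + tB X Y Z * tA X Y Z * tq X Y Z * X ^ 4)

/-- The trace of `g` times `yb`. -/
def sa (X Y Z : R) : R := X * yb X Y Z + Y * yb Y Z X + Z * yb Z X Y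

/-- The trace of `g ^ (2 q - 2)` times `yb`, times `M`. -/
def sb (X Y Z : R) : R :=
  Y ^ 3 * Z * (Z ^ 3 - X ^ 2 * Y) + Z ^ 3 * X * (X ^ 3 - Y ^ 2 * Z) + X ^ 3 * Y * (Y ^ 3 - Z ^ 2 * X)

/-- The contribution of the gap `2 q - 1`. -/
def W (X Y Z : R) : R := yb X Y Z * ((X * Y * Z) * sa X Y Z * X + sb X Y Z * X ^ 2)

/-- The condition. -/
def G (X Y Z : R) : R := U X Y Z * W Y Z X - U Y Z X * W X Y Z

theorem ya_map (f : R →+* S) (X Y Z : R) : f (ya X Y Z) = ya (f X) (f Y) (f Z) := by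
  simp [ya]

theorem yb_map (f : R →+* S) (X Y Z : R) : f (yb X Y Z) = yb (f X) (f Y) (f Z) := by
  simp [yb]

theorem ts_map (f : R →+* S) (X Y Z a b c : R) :
    f (ts X Y Z a b c) = ts (f X) (f Y) (f Z) (f a) (f b) (f c) := by
  simp [ts, ya_map]

theorem tA_map (f : R →+* S) (X Y Z : R) : f (tA X Y Z) = tA (f X) (f Y) (f Z) := by
  simp [tA, ts_map]

theorem tB_map (f : R →+* S) (X Y Z : R) : f (tB X Y Z) = tB (f X) (f Y) (f Z) := by
  simp [tB, ts_map]

theorem ti_map (f : R →+* S) (i : ℕ) (X Y Z : R) : f (ti i X Y Z) = ti i (f X) (f Y) (f Z) := by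
  simp [ti, ts_map]

theorem tq_map (f : R →+* S) (X Y Z : R) : f (tq X Y Z) = tq (f X) (f Y) (f Z) := by
  simp [tq, ts_map]

theorem sa_map (f : R →+* S) (X Y Z : R) : f (sa X Y Z) = sa (f X) (f Y) (f Z) := by
  simp [sa, yb_map]

theorem sb_map (f : R →+* S) (X Y Z : R) : f (sb X Y Z) = sb (f X) (f Y) (f Z) := by
  simp [sb]

theorem U_map (f : R →+* S) (X Y Z : R) : f (U X Y Z) = U (f X) (f Y) (f Z) := by
  simp only [U, map_mul, map_add, map_pow, ya_map, ti_map, tA_map, tB_map, tq_map]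

theorem W_map (f : R →+* S) (X Y Z : R) : f (W X Y Z) = W (f X) (f Y) (f Z) := by
  simp only [W, map_mul, map_add, map_pow, yb_map, sa_map, sb_map]

theorem G_map (f : R →+* S) (X Y Z : R) : f (G X Y Z) = G (f X) (f Y) (f Z) := by
  simp only [G, map_mul, map_sub, U_map, W_map]

theorem ya_smul (c X Y Z : R) : ya (c * X) (c * Y) (c * Z) = c ^ 3 * ya X Y Z := by
  unfold ya; ring

theorem yb_smul (c X Y Z : R) : yb (c * X) (c * Y) (c * Z) = c ^ 4 * yb X Y Z := by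
  unfold yb; ring

theorem ti_smul (c : R) (i : ℕ) (X Y Z : R) : ti i (c * X) (c * Y) (c * Z) = c ^ (i + 3) * ti i X Y Z := by
  unfold ti ts; rw [ya_smul, ya_smul, ya_smul]; ring

theorem tq_smul (c X Y Z : R) : tq (c * X) (c * Y) (c * Z) = c ^ 5 * tq X Y Z := by
  unfold tq ts; rw [ya_smul, ya_smul, ya_smul]; ring

theorem tA_smul (c X Y Z : R) : tA (c * X) (c * Y) (c * Z) = c ^ 7 * tA X Y Z := by
  unfold tA ts; rw [ya_smul, ya_smul, ya_smul]; ring

theorem tB_smul (c X Y Z : R) : tB (c * X) (c * Y) (c * Z) = c ^ 9 * tB X Y Z := by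
  unfold tB ts; rw [ya_smul, ya_smul, ya_smul]; ring

theorem sa_smul (c X Y Z : R) : sa (c * X) (c * Y) (c * Z) = c ^ 5 * sa X Y Z := by
  unfold sa; rw [yb_smul, yb_smul, yb_smul]; ring

theorem sb_smul (c X Y Z : R) : sb (c * X) (c * Y) (c * Z) = c ^ 7 * sb X Y Z := by
  unfold sb; ring

theorem U_smul (c X Y Z : R) : U (c * X) (c * Y) (c * Z) = c ^ 28 * U X Y Z := by
  unfold U
  rw [ya_smul, ti_smul, ti_smul, ti_smul, tA_smul, tB_smul, tq_smul]
  ring

theorem W_smul (c X Y Z : R) : W (c * X) (c * Y) (c * Z) = c ^ 13 * W X Y Z := by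
  unfold W
  rw [yb_smul, sa_smul, sb_smul]
  ring

theorem G_smul (c X Y Z : R) : G (c * X) (c * Y) (c * Z) = c ^ 41 * G X Y Z := by
  unfold G
  rw [U_smul, U_smul, W_smul, W_smul]
  ring

theorem G_zero (X Y : R) : G X Y 0 = -(X ^ 19 * Y ^ 20 * (X ^ 2 - Y ^ 2)) := by
  have hy0 : ya X Y 0 = 0 := by unfold ya; ring
  have hU0 : U X Y 0 = 0 := by unfold U; rw [hy0]; ring
  have hy1 : ya Y 0 X = -(Y ^ 2 * X) := by unfold ya; ring
  have hy2 : ya 0 X Y = Y ^ 2 * X := by unfold ya; ring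
  have h3 : ti 3 Y 0 X = -(X * Y ^ 5) := by
    unfold ti ts; rw [hy1, hy2]; unfold ya; ring
  have hA : tA Y 0 X = X ^ 4 * Y ^ 3 := by
    unfold tA ts; rw [hy1, hy2]; unfold ya; ring
  have hB : tB Y 0 X = X ^ 5 * Y ^ 4 := by
    unfold tB ts; rw [hy1, hy2]; unfold ya; ring
  have hq : tq Y 0 X = X ^ 3 * Y ^ 2 := by
    unfold tq ts; rw [hy1, hy2]; unfold ya; ring
  have hU1 : U Y 0 X = -(X ^ 11 * Y ^ 15 * (X ^ 2 - Y ^ 2)) := by
    unfold U; rw [hy1, h3, hA, hB, hq]; ring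
  have hW0 : W X Y 0 = -(X ^ 8 * Y ^ 5) := by
    unfold W sb yb; ring
  unfold G
  rw [hU0, hU1, hW0]
  ring

end Ring

/-- The parametrisation of the conic `X ^ 2 + ω Y ^ 2 + ω ^ 2 Z ^ 2 = 0`. -/
def pX {R : Type*} [CommRing R] (w m : R) : R := 1 + w * m ^ 2

def pY {R : Type*} [CommRing R] (w m : R) : R := w * m ^ 2 - 2 * w * m - 1

def pZ {R : Type*} [CommRing R] (w m : R) : R := 1 - 2 * m - w * m ^ 2

/-- The universal polynomial of the condition. -/
noncomputable def univG : Polynomial (Polynomial ℤ) :=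
  G (pX (C X) X) (pY (C X) X) (pZ (C X) X)

variable {K : Type*} [Field K]

/-- The polynomial of the condition over `K`. -/
noncomputable def polG (w : K) : Polynomial K := G (pX (C w) X) (pY (C w) X) (pZ (C w) X)

theorem polG_eq (w : K) : polG w = univG.map (eval₂RingHom (Int.castRingHom K) w) := by
  have h := G_map (mapRingHom (eval₂RingHom (Int.castRingHom K) w)) (pX (C X) X) (pY (C X) X)
    (pZ (C X : Polynomial (Polynomial ℤ)) X)
  rw [coe_mapRingHom] at h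
  unfold univG polG
  rw [h]
  simp [pX, pY, pZ]

theorem polG_deg (w : K) : (polG w).natDegree ≤ univG.natDegree := by
  rw [polG_eq]
  exact natDegree_map_le

theorem polG_eval {L : Type*} [Field L] (f : K →+* L) (w : K) (m : L) :
    (polG w).eval₂ f m = G (pX (f w) m) (pY (f w) m) (pZ (f w) m) := by
  have h := G_map (eval₂RingHom f m) (pX (C w) X) (pY (C w) X) (pZ (C w) X)
  rw [coe_eval₂RingHom] at h
  unfold polG
  rw [h]
  simp [pX, pY, pZ]

theorem polG_ne_zero (h2 : (2 : K) ≠ 0) {w : K} (hw : w ^ 2 + w + 1 = 0) : polG w ≠ 0 := by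
  intro h0
  let L := AlgebraicClosure K
  let f : K →+* L := algebraMap K L
  have hf : Function.Injective f := RingHom.injective f
  have hw0 : w ≠ 0 := by
    rintro rfl
    norm_num at hw
  -- a root of `w m ^ 2 + 2 m - 1`
  have hdeg : (C (f w) * X ^ 2 + C 2 * X + C (-1) : Polynomial L).degree ≠ 0 := by
    rw [degree_quadratic (by rw [Ne, map_eq_zero]; exact hw0)]
    norm_num
  obtain ⟨m, hm⟩ := IsAlgClosed.exists_root _ hdeg
  have hm' : f w * m ^ 2 + 2 * m + -1 = 0 := by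
    simpa [IsRoot] using hm
  have hwL : (f w) ^ 2 + f w + 1 = 0 := by
    have := congrArg f hw
    simpa using this
  have h2L : (2 : L) ≠ 0 := by
    intro h
    apply h2
    apply hf
    rw [map_zero, map_ofNat]
    exact h
  have e := polG_eval f w m
  rw [h0, eval₂_zero] at e
  have hZ : pZ (f w) m = 0 := by unfold pZ; linear_combination -hm'
  rw [hZ, G_zero] at e
  have hX : pX (f w) m = 2 * (1 - m) := by unfold pX; linear_combination hm'
  have hY : pY (f w) m = 2 * (f w) ^ 2 * m := by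
    unfold pY
    linear_combination hm' - 2 * m * hwL
  have hm0 : m ≠ 0 := by
    rintro rfl
    norm_num at hm'
  have hwL0 : f w ≠ 0 := by
    intro h
    rw [h] at hwL
    norm_num at hwL
  have hm1 : 1 - m ≠ 0 := by
    intro h
    have hm1 : m = 1 := by linear_combination -h
    rw [hm1] at hm'
    apply hwL0
    have h5 : (f w) ^ 2 = 0 := by linear_combination hwL - hm'
    exact pow_eq_zero_iff (two_ne_zero) |>.1 h5
  have hX0 : pX (f w) m ≠ 0 := by rw [hX]; exact mul_ne_zero h2L hm1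
  have hY0 : pY (f w) m ≠ 0 := by
    rw [hY]; exact mul_ne_zero (mul_ne_zero h2L (pow_ne_zero _ hwL0)) hm0
  have hXY : pX (f w) m ^ 2 - pY (f w) m ^ 2 = (f w) ^ 2 * pY (f w) m ^ 2 := by
    have hc : pX (f w) m ^ 2 + f w * pY (f w) m ^ 2 + (f w) ^ 2 * pZ (f w) m ^ 2 = 0 := by
      unfold pX pY pZ
      linear_combination (1 + f w * m ^ 2) ^ 2 * hwL
    rw [hZ] at hc
    linear_combination hc - pY (f w) m ^ 2 * hwL
  rw [hXY] at e
  have h6 := neg_eq_zero.1 e.symm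
  have h7 : pX (f w) m ^ 19 * pY (f w) m ^ 20 * ((f w) ^ 2 * pY (f w) m ^ 2) ≠ 0 :=
    mul_ne_zero (mul_ne_zero (pow_ne_zero _ hX0) (pow_ne_zero _ hY0))
      (mul_ne_zero (pow_ne_zero _ hwL0) (pow_ne_zero _ hY0))
  exact h7 h6

end Pool.Agent.Sgq
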