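import Pool.Agent.Sgp.Singer
import Pool.Agent.GolS.EquiB
import Pool.Agent.GolS.DivA
import Pool.Agent.GolS.DivB

/-!
# Units in a planar difference set, MP_1e2239_co
-/

open Finset

namespace Pool.Agent.Sgq

open Pool.Agent.Sgp (PDS)
open Pool.Agent.GolS (hc tau kap rho)
open Pool.Agent.GolS.EquiAux (card_ker dvd_val_iff Nd hc_eq sum_moebius_div)

/-- Equidistribution of `A` in the subgroup of index `g`. -/
theorem F1 {q v : ℕ} [NeZero v] {A : Finset (ZMod v)} (h : PDS q v A) (g : ℕ) (hg : g ∣ v) :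
    (((A.filter fun a => g ∣ a.val).card : ℝ) - ((q : ℝ) + 1) / g) ^ 2 ≤ q := by
  classical
  have hg0 : g ≠ 0 := by
    rintro rfl
    exact NeZero.ne v (Nat.eq_zero_of_zero_dvd hg)
  have : NeZero g := ⟨hg0⟩
  have hgR : (0 : ℝ) < g := by
    have : 0 < g := Nat.pos_of_ne_zero hg0
    exact_mod_cast this
  set f := ZMod.castHom hg (ZMod g) with hf
  set x : ZMod g → ℕ := fun c => (A.filter fun a => f a = c).card with hx
  set K := (univ.filter fun y : ZMod v => f y = 0).card with hK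
  have hKv : g * K = v := card_ker hg
  have hx0 : (A.filter fun a => g ∣ a.val).card = x 0 := by
    rw [hx]
    congr 1
    exact Finset.filter_congr (fun a _ => dvd_val_iff hg a)
  have hsum : ∑ c : ZMod g, x c = q + 1 := by
    rw [← h.card]
    exact (Finset.card_eq_sum_card_fiberwise (fun a _ => mem_univ _)).symm
  set P := (A ×ˢ A).filter (fun p => f p.1 = f p.2) with hP
  have hsq : ∑ c : ZMod g, x c ^ 2 = P.card := by
    rw [Finset.card_eq_sum_card_fiberwise (f := fun p : ZMod v × ZMod v => f p.1)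
      (t := (univ : Finset (ZMod g))) (fun a _ => mem_univ _)]
    refine Finset.sum_congr rfl (fun c _ => ?_)
    rw [hx, sq, ← Finset.card_product]
    congr 1
    ext p
    simp only [hP, Finset.mem_filter, Finset.mem_product]
    constructor
    · rintro ⟨⟨h1, h2⟩, h3, h4⟩
      exact ⟨⟨⟨h1, h3⟩, by rw [h2, h4]⟩, h2⟩
    · rintro ⟨⟨⟨h1, h3⟩, h4⟩, h2⟩
      exact ⟨⟨h1, h2⟩, h3, by rw [← h4, h2]⟩
  have hPle : P.card + 1 ≤ (q + 1) + K := by
    have h1 : P.card = (P.filter (fun p => p.1 = p.2)).card + (P.filter (fun p => ¬ p.1 = p.2)).card :=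
      (Finset.card_filter_add_card_filter_not _).symm
    have h2 : (P.filter (fun p => p.1 = p.2)).card ≤ q + 1 := by
      rw [← h.card]
      refine Finset.card_le_card_of_injOn (fun p => p.1) ?_ ?_
      · intro p hp
        have hp' := Finset.mem_filter.1 (Finset.mem_coe.1 hp)
        rw [hP, Finset.mem_filter, Finset.mem_product] at hp'
        exact Finset.mem_coe.2 hp'.1.1.1
      · intro p hp r hr hpr
        have hp' := (Finset.mem_filter.1 (Finset.mem_coe.1 hp)).2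
        have hr' := (Finset.mem_filter.1 (Finset.mem_coe.1 hr)).2
        have hpr' : p.1 = r.1 := hpr
        exact Prod.ext hpr' (by rw [← hp', ← hr', hpr'])
    have h3 : (P.filter (fun p => ¬ p.1 = p.2)).card + 1 ≤ K := by
      have h4 : (0 : ZMod v) ∈ univ.filter fun y : ZMod v => f y = 0 := by
        rw [Finset.mem_filter]
        exact ⟨mem_univ _, map_zero f⟩
      have h5 : ((univ.filter fun y : ZMod v => f y = 0).erase 0).card + 1 = K :=
        Finset.card_erase_add_one h4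
      rw [← h5]
      refine Nat.add_le_add_right ?_ 1
      refine Finset.card_le_card_of_injOn (fun p => p.1 - p.2) ?_ ?_
      · intro p hp
        have hp' := Finset.mem_filter.1 (Finset.mem_coe.1 hp)
        rw [hP, Finset.mem_filter, Finset.mem_product] at hp'
        refine Finset.mem_coe.2 (Finset.mem_erase.2 ⟨?_, Finset.mem_filter.2 ⟨mem_univ _, ?_⟩⟩)
        · exact sub_ne_zero.2 hp'.2
        · change f (p.1 - p.2) = 0
          rw [map_sub, hp'.1.2, sub_self]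
      · intro p hp r hr hpr
        have hp' := Finset.mem_filter.1 (Finset.mem_coe.1 hp)
        rw [hP, Finset.mem_filter, Finset.mem_product] at hp'
        have hr' := Finset.mem_filter.1 (Finset.mem_coe.1 hr)
        rw [hP, Finset.mem_filter, Finset.mem_product] at hr'
        have hpr' : p.1 - p.2 = r.1 - r.2 := hpr
        have := h.sidon p.1 hp'.1.1.1 p.2 hp'.1.1.2 r.1 hr'.1.1.1 r.2 hr'.1.1.2 hp'.2 hpr'
        exact Prod.ext this.1 this.2
    omega
  have hsumR : ∑ c : ZMod g, (x c : ℝ) = (q : ℝ) + 1 := by exact_mod_cast hsum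
  have hsqR : ∑ c : ZMod g, (x c : ℝ) ^ 2 ≤ (q : ℝ) + K := by
    have : (P.card : ℝ) ≤ (q : ℝ) + K := by
      have h6 : ((P.card + 1 : ℕ) : ℝ) ≤ (((q + 1) + K : ℕ) : ℝ) := by exact_mod_cast hPle
      push_cast at h6
      linarith
    have h7 : ∑ c : ZMod g, (x c : ℝ) ^ 2 = (P.card : ℝ) := by exact_mod_cast hsq
    rw [h7]
    exact this
  have hKR : (g : ℝ) * K = (q : ℝ) ^ 2 + q + 1 := by
    have := h.hv
    rw [← hKv] at this
    exact_mod_cast this
  rw [hx0]
  have hle : ((x 0 : ℝ) - ((q : ℝ) + 1) / g) ^ 2 ≤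
      ∑ c : ZMod g, ((x c : ℝ) - ((q : ℝ) + 1) / g) ^ 2 :=
    Finset.single_le_sum (f := fun c : ZMod g => ((x c : ℝ) - ((q : ℝ) + 1) / g) ^ 2)
      (fun c _ => sq_nonneg _) (mem_univ _)
  refine hle.trans ?_
  have hexp : ∑ c : ZMod g, ((x c : ℝ) - ((q : ℝ) + 1) / g) ^ 2 =
      ∑ c : ZMod g, (x c : ℝ) ^ 2 - 2 * (((q : ℝ) + 1) / g) * ∑ c : ZMod g, (x c : ℝ) +
        g * (((q : ℝ) + 1) / g) ^ 2 := by
    have : ∀ c : ZMod g, ((x c : ℝ) - ((q : ℝ) + 1) / g) ^ 2 =
        (x c : ℝ) ^ 2 - 2 * (((q : ℝ) + 1) / g) * (x c : ℝ) + (((q : ℝ) + 1) / g) ^ 2 := by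
      intro c
      ring
    rw [Finset.sum_congr rfl (fun c _ => this c), Finset.sum_add_distrib, Finset.sum_sub_distrib,
      ← Finset.mul_sum, Finset.sum_const, Finset.card_univ, ZMod.card, nsmul_eq_mul]
  rw [hexp, hsumR]
  have e1 : 2 * (((q : ℝ) + 1) / g) * ((q : ℝ) + 1) = 2 * (((q : ℝ) + 1) ^ 2 / g) := by
    ring
  have e2 : (g : ℝ) * (((q : ℝ) + 1) / g) ^ 2 = ((q : ℝ) + 1) ^ 2 / g := by
    field_simp
  have e3 : (K : ℝ) ≤ ((q : ℝ) + 1) ^ 2 / g := by
    rw [le_div_iff₀ hgR]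
    nlinarith [hKR, (Nat.cast_nonneg q : (0 : ℝ) ≤ q)]
  rw [e1, e2]
  linarith

/-- The number of units in `A`. -/
theorem units_ge {q v : ℕ} [NeZero v] {A : Finset (ZMod v)} (h : PDS q v A) :
    rho q v - tau v * Real.sqrt q ≤ (hc A 1 : ℝ) := by
  classical
  have hv0 : 0 < v := Nat.pos_of_ne_zero (NeZero.ne v)
  rw [hc_eq]
  have key : ∀ d ∈ v.divisors,
      ((q : ℝ) + 1) * (((ArithmeticFunction.moebius d : ℤ) : ℝ) / d) - Real.sqrt q ≤
      ((ArithmeticFunction.moebius d : ℤ) : ℝ) *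
      ((univ.filter fun x : ZMod v => d ∣ x.val ∧ ((1 : ℕ) : ZMod v) * x ∈ A).card : ℝ) := by
    intro d hd
    have hdv : d ∣ v := Nat.dvd_of_mem_divisors hd
    have hd0 : 0 < d := Nat.pos_of_dvd_of_pos hdv hv0
    have hN : (univ.filter fun x : ZMod v => d ∣ x.val ∧ ((1 : ℕ) : ZMod v) * x ∈ A) =
        A.filter fun a => d ∣ a.val := by
      ext x
      simp only [Finset.mem_filter, mem_univ, true_and, Nat.cast_one, one_mul]
      exact and_comm
    rw [hN]
    set a := ((A.filter fun a => d ∣ a.val).card : ℝ) with ha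
    have habs : |a - ((q : ℝ) + 1) / d| ≤ Real.sqrt q := by
      rw [← Real.sqrt_sq_eq_abs]
      exact Real.sqrt_le_sqrt (F1 h d hdv)
    have hmu : |((ArithmeticFunction.moebius d : ℤ) : ℝ)| ≤ 1 := by
      have := ArithmeticFunction.abs_moebius_le_one (n := d)
      exact_mod_cast this
    have e2 : ((ArithmeticFunction.moebius d : ℤ) : ℝ) * a =
        ((q : ℝ) + 1) * (((ArithmeticFunction.moebius d : ℤ) : ℝ) / d) +
          ((ArithmeticFunction.moebius d : ℤ) : ℝ) * (a - ((q : ℝ) + 1) / d) := by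
      ring
    rw [e2]
    have e3 : |((ArithmeticFunction.moebius d : ℤ) : ℝ) * (a - ((q : ℝ) + 1) / d)| ≤ Real.sqrt q := by
      rw [abs_mul]
      calc _ ≤ 1 * Real.sqrt q := mul_le_mul hmu habs (abs_nonneg _) zero_le_one
        _ = _ := one_mul _
    have e4 := (abs_le.1 e3).1
    linarith
  refine le_trans ?_ (Finset.sum_le_sum key)
  rw [Finset.sum_sub_distrib, ← Finset.mul_sum, sum_moebius_div v hv0, Finset.sum_const,
    nsmul_eq_mul]
  unfold rho tau
  apply le_of_eq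
  ring

/-- For large `q` every planar difference set has more than `N` units. -/
theorem many_units (N : ℕ) : ∃ q0 : ℕ, ∀ q v : ℕ, q0 ≤ q → ∀ _ : NeZero v, ∀ A : Finset (ZMod v),
    PDS q v A → N < hc A 1 := by
  obtain ⟨n0, hn0⟩ := Pool.Agent.GolS.divisor_bound (1 / 32) (by norm_num)
  refine ⟨max n0 ((16 * (N + 3)) ^ 8), fun q v hq hv A hA => ?_⟩
  have hqn : n0 ≤ q := (le_max_left _ _).trans hq
  have hqN : (16 * (N + 3)) ^ 8 ≤ q := (le_max_right _ _).trans hq
  have hvq : v = q ^ 2 + q + 1 := hA.hv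
  have hq2 := hA.hq
  have hv0 : 0 < v := Nat.pos_of_ne_zero (NeZero.ne v)
  have hvR : (0 : ℝ) < v := by exact_mod_cast hv0
  have hqR : (2 : ℝ) ≤ q := by exact_mod_cast hq2
  have hq0 : (0 : ℝ) < q := by linarith
  have htau : tau v ≤ (v : ℝ) ^ ((1 : ℝ) / 32) := hn0 v (by nlinarith)
  have hv3 : (v : ℝ) ≤ (q : ℝ) ^ (4 : ℝ) := by
    have e : ((q : ℝ) ^ (4 : ℝ)) = (q : ℝ) ^ (4 : ℕ) := by
      rw [← Real.rpow_natCast]; norm_num
    rw [e]
    have : (v : ℝ) = (q : ℝ) ^ 2 + q + 1 := by rw [hvq]; push_cast; ring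
    rw [this]
    have h1 : (q : ℝ) ^ 4 = q ^ 2 * q ^ 2 := by ring
    rw [h1]
    have h2 : 4 ≤ (q : ℝ) ^ 2 := by nlinarith
    nlinarith
  set Q := (q : ℝ) ^ ((1 : ℝ) / 8) with hQ
  have hQ0 : 0 < Q := Real.rpow_pos_of_pos hq0 _
  have htau2 : tau v ≤ Q := by
    refine htau.trans ?_
    have h1 := Real.rpow_le_rpow hvR.le hv3 (by norm_num : (0 : ℝ) ≤ 1 / 32)
    rw [← Real.rpow_mul hq0.le] at h1
    have : (4 : ℝ) * (1 / 32) = 1 / 8 := by norm_num
    rwa [this] at h1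
  have hQ8 : Q ^ 8 = q := by
    rw [hQ, ← Real.rpow_natCast, ← Real.rpow_mul hq0.le]
    norm_num
  have hQ4 : Real.sqrt q = Q ^ 4 := by
    rw [← hQ8]
    have : Q ^ 8 = (Q ^ 4) ^ 2 := by ring
    rw [this]
    exact Real.sqrt_sq (by positivity)
  have hQN : 16 * ((N : ℝ) + 3) ≤ Q := by
    have h1 : ((16 * (N + 3)) ^ 8 : ℝ) ≤ q := by exact_mod_cast hqN
    rw [← hQ8] at h1
    exact le_of_pow_le_pow_left₀ (by norm_num) hQ0.le h1
  have htau1 : 1 ≤ tau v := by
    unfold tau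
    have : 0 < v.divisors.card := card_pos.2 ⟨1, Nat.one_mem_divisors.2 hv0.ne'⟩
    exact_mod_cast this
  have hkap := Pool.Agent.GolS.inv_kap v hv0
  have hkp : 0 < kap v := by
    unfold kap
    have := Nat.totient_pos.2 hv0
    positivity
  have hl2 : (1 : ℝ) / 2 ≤ Real.log 2 := by
    have := Real.log_two_gt_d9
    linarith
  have hlog : Real.log (tau v) ≤ Q := by
    have := Real.log_le_sub_one_of_pos (by linarith : 0 < tau v)
    linarith
  have hN0 : (0 : ℝ) ≤ N := Nat.cast_nonneg N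
  have hk2 : 1 / kap v ≤ 4 * Q := by
    refine hkap.trans ?_
    have h1 : Real.log (tau v) / Real.log 2 ≤ Q / (1 / 2) :=
      div_le_div₀ hQ0.le hlog (by norm_num) hl2
    have h3 : Q / (1 / 2) = 2 * Q := by ring
    rw [h3] at h1
    linarith
  have hk3 : 1 ≤ kap v * (4 * Q) := by
    rw [div_le_iff₀ hkp] at hk2
    linarith
  have hrho : rho q v = ((q : ℝ) + 1) * kap v := by
    unfold rho kap
    ring
  have hge := units_ge hA
  rw [hrho, hQ4] at hge
  have h1 : Q ^ 7 / 4 ≤ ((q : ℝ) + 1) * kap v := by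
    have h2 : Q ^ 7 / 4 ≤ Q ^ 7 / 4 * (kap v * (4 * Q)) :=
      le_mul_of_one_le_right (by positivity) hk3
    have h3 : Q ^ 7 / 4 * (kap v * (4 * Q)) = Q ^ 8 * kap v := by ring
    rw [h3, hQ8] at h2
    nlinarith
  have h2 : tau v * Q ^ 4 ≤ Q ^ 5 := by
    have : Q ^ 5 = Q * Q ^ 4 := by ring
    rw [this]
    exact mul_le_mul_of_nonneg_right htau2 (by positivity)
  have h3 : (N : ℝ) < Q ^ 7 / 4 - Q ^ 5 := by
    have hQ48 : 48 ≤ Q := by linarith
    have h4 : Q ^ 7 / 4 - Q ^ 5 = Q ^ 5 * (Q ^ 2 / 4 - 1) := by ring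
    rw [h4]
    have h5 : 1 ≤ Q ^ 5 := one_le_pow₀ (by linarith)
    have h6 : (N : ℝ) < Q ^ 2 / 4 - 1 := by nlinarith
    nlinarith
  have h4 : (N : ℝ) < (hc A 1 : ℝ) := by linarith
  exact_mod_cast h4

end Pool.Agent.Sgq
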