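import Pool.Agent.Sgq.Step
import Pool.Agent.Sgq.Equi

/-!
# A good dilate, MP_1e2239_co
-/

open Finset

namespace Pool.Agent.Sgq

open Pool.Agent.Sgp

variable {K : Type*} [Field K] {q : ℕ}

/-- The twisted trace. -/
def Lw (q : ℕ) (ω x : K) : K := x + ω * x ^ q + ω ^ 2 * x ^ (q ^ 2)

theorem tr_theta {ω θ : K} (hθ : θ ^ q = ω * θ) (hωq : ω ^ q = ω) (x : K) :
    tr q (θ * x) = θ * Lw q ω x := by
  have h2 : θ ^ (q ^ 2) = ω ^ 2 * θ := by
    rw [sq_frob, hθ, mul_pow, hωq, hθ]; ring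
  unfold tr Lw
  rw [mul_pow, mul_pow, h2, hθ]
  ring

theorem Lw_pow {r : ℕ} (haddr : ∀ x y : K, (x + y) ^ r = x ^ r + y ^ r) {ω : K} (hωr : ω ^ r = ω) (x : K) :
    (Lw q ω x) ^ r = Lw q ω (x ^ r) := by
  unfold Lw
  have sw : ∀ (y : K) (i : ℕ), (y ^ i) ^ r = (y ^ r) ^ i := by
    intro y i
    rw [← pow_mul, ← pow_mul, mul_comm]
  rw [haddr, haddr, mul_pow, mul_pow, hωr, sw ω 2, hωr, sw x q, sw x (q ^ 2)]

theorem Lw_one {ω : K} (hω : ω ^ 2 + ω + 1 = 0) : Lw q ω 1 = 0 := by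
  unfold Lw
  rw [one_pow, one_pow]
  linear_combination hω

/-- The parametrisation of the conic. -/
theorem conic_param {ω X Y Z m : K} (h2 : (2 : K) ≠ 0) (hω : ω ^ 2 + ω + 1 = 0) (hX : X ≠ 0)
    (hYX : Y - X ≠ 0) (hm : m * (Y - X) = Z - X) (h : X ^ 2 + ω * Y ^ 2 + ω ^ 2 * Z ^ 2 = 0) :
    1 + ω * m ^ 2 ≠ 0 ∧ X = X / (1 + ω * m ^ 2) * pX ω m ∧ Y = X / (1 + ω * m ^ 2) * pY ω m ∧
      Z = X / (1 + ω * m ^ 2) * pZ ω m := by
  have hω0 : ω ≠ 0 := by
    rintro rfl
    norm_num at hω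
  have hZ : Z = X + m * (Y - X) := by linear_combination -hm
  have hstar : 2 * X * (1 + ω * m) + (Y - X) * (1 + ω * m ^ 2) = 0 := by
    apply mul_left_cancel₀ (mul_ne_zero hYX hω0)
    rw [mul_zero]
    rw [hZ] at h
    linear_combination h - X ^ 2 * hω
  have hne : 1 + ω * m ^ 2 ≠ 0 := by
    intro h0
    rw [h0, mul_zero, add_zero] at hstar
    have h1 : 1 + ω * m = 0 := (mul_eq_zero.1 hstar).resolve_left (mul_ne_zero h2 hX)
    have h3 : m = 1 := by linear_combination m * h1 - h0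
    rw [h3, mul_one] at h1
    have h4 : ω ^ 2 = 0 := by linear_combination hω - h1
    exact hω0 (pow_eq_zero_iff two_ne_zero |>.1 h4)
  refine ⟨hne, ?_, ?_, ?_⟩
  · unfold pX
    field_simp
  · unfold pY
    field_simp
    linear_combination hstar
  · unfold pZ
    field_simp
    rw [hZ]
    linear_combination m * hstar

variable [Fintype K] [DecidableEq K]

/-- There is a generator with a zero-free window of length `2 q + 1`. -/
theorem good_gen {r : ℕ} (hq : 5 ≤ q) (hr : 2 ≤ r) (hrq : r < q)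
    (hadd : ∀ x y : K, (x + y) ^ q = x ^ q + y ^ q) (haddr : ∀ x y : K, (x + y) ^ r = x ^ r + y ^ r)
    (hcard : Fintype.card K = q ^ 3) (h2 : (2 : K) ≠ 0)
    (w : Kˣ) (hw : ∀ x : Kˣ, x ∈ Subgroup.zpowers w)
    (ω : K) (hω : ω ^ 2 + ω + 1 = 0) (hωr : ω ^ r = ω) (hωq : ω ^ q = ω) (k : ℤ)
    (hθ : ((w ^ k : Kˣ) : K) ^ q = ω * ((w ^ k : Kˣ) : K))
    (hmany : ∀ _ : NeZero (q ^ 2 + q + 1), ∀ A : Finset (ZMod (q ^ 2 + q + 1)),
      PDS q (q ^ 2 + q + 1) A → univG.natDegree < Pool.Agent.GolS.hc A 1) :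
    ∃ g : Kˣ, (∀ x : Kˣ, x ∈ Subgroup.zpowers g) ∧ ∃ x : Kˣ, ∀ i < 2 * q + 1,
      tr q ((g : K) ^ i * (x : K)) ≠ 0 := by
  classical
  by_contra hcon
  push Not at hcon
  have hK := fix_pow hcard
  have hq0 : q ≠ 0 := by omega
  have hq2 : 2 ≤ q := by omega
  have hsub := sub_iff hq2 hcard w hw
  have hord := ord_gen hq2 hcard w hw
  set v := q ^ 2 + q + 1 with hv
  have hNe : NeZero v := ⟨by omega⟩
  obtain ⟨A, hA, hAmem⟩ := pds_of_gen hq2 hadd hcard w hw
  have hB := pds_shift hA (k : ZMod v)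
  set B : Finset (ZMod v) := univ.filter fun s => s + (k : ZMod v) ∈ A with hBdef
  have hBc := hmany hNe B hB
  set N := (q - 1) * v with hN
  have hN0 : N ≠ 0 := Nat.mul_ne_zero (by omega) (by omega)
  have hNeN : NeZero N := ⟨hN0⟩
  have hvN : v ∣ N := Dvd.intro_left _ rfl
  have hcop2 : Nat.Coprime 2 v := by
    rw [Nat.coprime_two_left]
    have h5 : Even (q ^ 2 + q) := by
      have : q ^ 2 + q = q * (q + 1) := by ring
      rw [this]
      exact Nat.even_mul_succ_self q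
    exact h5.add_one
  set t := ZMod.unitOfCoprime 2 hcop2 with ht
  have htv : ((t : ZMod v)) = 2 := by
    rw [ht, ZMod.coe_unitOfCoprime]
    norm_num
  have hlift := ZMod.unitsMap_surjective hvN
  choose lf hlf using hlift
  let a : (ZMod v)ˣ → ℕ := fun u => ((lf (u * t⁻¹) : (ZMod N)ˣ) : ZMod N).val
  have ha1 : ∀ u, Nat.Coprime (a u) N := fun u => ZMod.val_coe_unit_coprime _
  have ha2 : ∀ u, ((a u : ℕ) : ZMod v) = ((u * t⁻¹ : (ZMod v)ˣ) : ZMod v) := by
    intro u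
    have h1 := ZMod.unitsMap_val hvN (lf (u * t⁻¹))
    rw [hlf] at h1
    rw [h1, ← ZMod.natCast_val]
  let T : Finset (ZMod v)ˣ := univ.filter fun u => ((1 : ℕ) : ZMod v) * (u : ZMod v) ∈ B
  have hTc : univG.natDegree < T.card := hBc
  -- the dilates
  have hkey : ∀ u ∈ T, ∃ m : K, (polG ω).IsRoot m ∧
      ((w ^ a u : Kˣ) : K) ≠ 0 ∧ (1 + ω * m ^ 2 ≠ 0) ∧
      ((w ^ a u : Kˣ) : K) ^ q * (1 + ω * m ^ 2) = ((w ^ a u : Kˣ) : K) * pY ω m := by
    intro u hu
    set g : Kˣ := w ^ a u with hg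
    have hgen : ∀ x : Kˣ, x ∈ Subgroup.zpowers g := by
      have h1 : w ∈ Subgroup.zpowers g := by
        rw [hg, mem_zpowers_pow_iff, hord]
        exact ha1 u
      intro x
      exact (Subgroup.zpowers_le.2 h1) (hw x)
    have hcopv : Nat.Coprime (a u) v := Nat.Coprime.coprime_dvd_right hvN (ha1 u)
    have hpow : ∀ n : ℕ, 1 ≤ n → n ≤ 2 * q + 1 → ((g : K) ^ n) ^ q ≠ (g : K) ^ n := by
      intro n hn1 hn2 e
      have h1 := (hsub ((a u * n : ℕ) : ℤ)).1 (by
        rw [zpow_natCast, pow_mul, Units.val_pow_eq_pow_val]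
        exact e)
      have h3 : v ∣ a u * n := by exact_mod_cast h1
      have h4 := hcopv.symm.dvd_of_dvd_mul_left h3
      have h5 := Nat.le_of_dvd hn1 h4
      nlinarith
    have hmemB : (u : ZMod v) + (k : ZMod v) ∈ A := by
      have h1 := (mem_filter.1 hu).2
      rw [Nat.cast_one, one_mul, hBdef, mem_filter] at h1
      exact h1.2
    set θ : K := ((w ^ k : Kˣ) : K) with hθd
    have hθ0 : θ ≠ 0 := Units.ne_zero _
    have hL2 : Lw q ω ((g : K) ^ 2) = 0 := by
      have h1 : tr q (θ * (g : K) ^ 2) = 0 := by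
        have h3 := (hAmem (k + 2 * (a u : ℤ))).1 (by
          have h4 : ((k + 2 * (a u : ℤ) : ℤ) : ZMod v) = (u : ZMod v) + (k : ZMod v) := by
            push_cast
            rw [ha2 u, Units.val_mul, ← htv]
            have : (t : ZMod v) * ((u : ZMod v) * ((t⁻¹ : (ZMod v)ˣ) : ZMod v)) = u := by
              rw [← Units.val_mul, ← Units.val_mul]
              congr 1
              rw [mul_left_comm, mul_inv_cancel, mul_one]
            rw [this]
            ring
          rw [h4]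
          exact hmemB)
        rw [zpow_add, Units.val_mul] at h3
        have h5 : ((w ^ (2 * (a u : ℤ)) : Kˣ) : K) = (g : K) ^ 2 := by
          rw [hg, mul_comm, zpow_mul, zpow_natCast, zpow_ofNat, Units.val_pow_eq_pow_val]
        rw [h5] at h3
        exact h3
      rw [tr_theta hθ hωq] at h1
      exact (mul_eq_zero.1 h1).resolve_left hθ0
    have hLr : Lw q ω ((g : K) ^ (2 * r)) = 0 := by
      rw [pow_mul, ← Lw_pow haddr hωr, hL2, zero_pow (by omega)]
    have hLq : Lw q ω ((g : K) ^ (2 * q)) = 0 := by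
      rw [pow_mul, ← Lw_pow hadd hωq, hL2, zero_pow (by omega)]
    have htr : ∀ x : K, Lw q ω x = 0 → tr q (x * θ) = 0 := by
      intro x hx
      rw [mul_comm, tr_theta hθ hωq, hx, mul_zero]
    have hG := gap_step hq hr hrq hadd hcard w hw g hpow (fun x => hcon g hgen x) θ hθ0
      (by
        have h1 := htr 1 (Lw_one hω)
        rwa [one_mul] at h1)
      (htr _ hL2) (htr _ hLr) (htr _ hLq)
    have hX0 : (g : K) ≠ 0 := Units.ne_zero _
    have hYX : (g : K) ^ q - (g : K) ≠ 0 := by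
      intro h1
      apply hpow 1 le_rfl (by omega)
      rw [pow_one]
      exact sub_eq_zero.1 h1
    have hconic : (g : K) ^ 2 + ω * ((g : K) ^ q) ^ 2 + ω ^ 2 * ((g : K) ^ (q ^ 2)) ^ 2 = 0 := by
      unfold Lw at hL2
      have sw : ∀ (i : ℕ), ((g : K) ^ i) ^ 2 = ((g : K) ^ 2) ^ i := by
        intro i
        rw [← pow_mul, ← pow_mul, mul_comm]
      rw [sw q, sw (q ^ 2)]
      exact hL2
    set m : K := ((g : K) ^ (q ^ 2) - (g : K)) / ((g : K) ^ q - (g : K)) with hm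
    obtain ⟨hne, e1, e2, e3⟩ := conic_param (m := m) h2 hω hX0 hYX (by rw [hm]; field_simp) hconic
    refine ⟨m, ?_, hX0, hne, ?_⟩
    · set c : K := (g : K) / (1 + ω * m ^ 2) with hc
      have hc0 : c ≠ 0 := div_ne_zero hX0 hne
      rw [e2, e3] at hG
      have hG2 : G (c * pX ω m) (c * pY ω m) (c * pZ ω m) = 0 := by
        rw [← e1]
        exact hG
      rw [G_smul] at hG2
      have h5 := (mul_eq_zero.1 hG2).resolve_left (pow_ne_zero _ hc0)
      have h6 := polG_eval (RingHom.id K) ω m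
      rw [RingHom.id_apply, h5] at h6
      rw [Polynomial.IsRoot.def, Polynomial.eval, h6]
    · have h7 : (g : K) ^ q * (1 + ω * m ^ 2) =
          ((g : K) / (1 + ω * m ^ 2) * pY ω m) * (1 + ω * m ^ 2) := by rw [← e2]
      rw [h7]
      field_simp
  choose! ms hms using hkey
  have hinj : ∀ u ∈ T, ∀ u' ∈ T, ms u = ms u' → u = u' := by
    intro u hu u' hu' e
    obtain ⟨-, hg0, hne, h1⟩ := hms u hu
    obtain ⟨-, hg0', -, h1'⟩ := hms u' hu'
    rw [← e] at h1'
    have h3 : ((w ^ a u : Kˣ) : K) ^ q * ((w ^ a u' : Kˣ) : K) =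
        ((w ^ a u' : Kˣ) : K) ^ q * ((w ^ a u : Kˣ) : K) := by
      apply mul_right_cancel₀ hne
      linear_combination ((w ^ a u' : Kˣ) : K) * h1 - ((w ^ a u : Kˣ) : K) * h1'
    have h4 := (hsub ((a u : ℤ) - (a u' : ℤ))).1 (by
      have e1 : ((w ^ ((a u : ℤ) - (a u' : ℤ)) : Kˣ) : K) =
          ((w ^ a u : Kˣ) : K) / ((w ^ a u' : Kˣ) : K) := by
        rw [zpow_sub, zpow_natCast, zpow_natCast, Units.val_mul, Units.val_inv_eq_inv_val,
          div_eq_mul_inv]
      rw [e1, div_pow, div_eq_div_iff (pow_ne_zero _ hg0') hg0', h3]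
      ring)
    have h5 : ((a u : ℕ) : ZMod v) = ((a u' : ℕ) : ZMod v) := by
      rw [← ZMod.intCast_zmod_eq_zero_iff_dvd] at h4
      push_cast at h4
      exact sub_eq_zero.1 h4
    rw [ha2, ha2] at h5
    exact mul_right_cancel (Units.ext h5)
  have hpol := polG_ne_zero h2 hω
  have h8 : T.card ≤ (polG ω).roots.toFinset.card := by
    apply card_le_card_of_injOn ms
    · intro u hu
      rw [mem_coe, Multiset.mem_toFinset, Polynomial.mem_roots hpol]
      exact (hms u hu).1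
    · intro u hu u' hu' e
      exact hinj u hu u' hu' e
  have h9 : (polG ω).roots.toFinset.card ≤ univG.natDegree :=
    (Multiset.toFinset_card_le _).trans ((Polynomial.card_roots' _).trans (polG_deg ω))
  omega

end Pool.Agent.Sgq
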