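import Pool.Agent.Sgq.Rel
import Pool.Agent.Sgq.Alg

/-!
# The relation in terms of `g, g ^ q, g ^ (q ^ 2)`, MP_1e2239_co
-/

open Finset

namespace Pool.Agent.Sgq

open Pool.Agent.Sgp

variable {K : Type*} [Field K] {q : ℕ}

/-- The Frobenius map. -/
def fr (hq : q ≠ 0) (hadd : ∀ x y : K, (x + y) ^ q = x ^ q + y ^ q) : K →+* K where
  toFun x := x ^ q
  map_one' := one_pow q
  map_mul' x y := mul_pow x y q
  map_zero' := zero_pow hq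
  map_add' := hadd

section

variable (hq : q ≠ 0) (hadd : ∀ x y : K, (x + y) ^ q = x ^ q + y ^ q)
  (hK : ∀ x : K, x ^ (q ^ 3) = x)

include hK in
theorem Zq (g : K) : (g ^ (q ^ 2)) ^ q = g := by
  rw [← pow_mul, ← pow_succ, hK]

theorem Yq (g : K) : (g ^ q) ^ q = g ^ (q ^ 2) := by
  rw [← pow_mul, ← pow_two]

theorem sq_frob (x : K) : x ^ (q ^ 2) = (x ^ q) ^ q := by
  rw [← pow_mul, ← pow_two]

include hq hadd hK in
theorem frob_fun (f : K → K → K → K)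
    (hf : ∀ (φ : K →+* K) (X Y Z : K), φ (f X Y Z) = f (φ X) (φ Y) (φ Z)) (g : K) :
    (f g (g ^ q) (g ^ (q ^ 2))) ^ q = f (g ^ q) (g ^ (q ^ 2)) g ∧
    (f g (g ^ q) (g ^ (q ^ 2))) ^ (q ^ 2) = f (g ^ (q ^ 2)) g (g ^ q) := by
  have h1 : ∀ X Y Z : K, (f X Y Z) ^ q = f (X ^ q) (Y ^ q) (Z ^ q) := fun X Y Z =>
    hf (fr hq hadd) X Y Z
  have h2 : (f g (g ^ q) (g ^ (q ^ 2))) ^ q = f (g ^ q) (g ^ (q ^ 2)) g := by
    rw [h1, Yq, Zq hK]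
  refine ⟨h2, ?_⟩
  rw [sq_frob (f g (g ^ q) (g ^ (q ^ 2))), h2, h1, Yq, Zq hK]

include hq hadd hK in
theorem tr_ya (g a : K) : tr q (a * ya g (g ^ q) (g ^ (q ^ 2))) =
    ts g (g ^ q) (g ^ (q ^ 2)) a (a ^ q) (a ^ (q ^ 2)) := by
  obtain ⟨h1, h2⟩ := frob_fun hq hadd hK ya (fun φ X Y Z => ya_map φ X Y Z) g
  unfold tr ts
  rw [mul_pow, mul_pow, h1, h2]

include hq hadd hK in
theorem tr_yb (g a : K) : tr q (a * yb g (g ^ q) (g ^ (q ^ 2))) =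
    a * yb g (g ^ q) (g ^ (q ^ 2)) + a ^ q * yb (g ^ q) (g ^ (q ^ 2)) g +
      a ^ (q ^ 2) * yb (g ^ (q ^ 2)) g (g ^ q) := by
  obtain ⟨h1, h2⟩ := frob_fun hq hadd hK yb (fun φ X Y Z => yb_map φ X Y Z) g
  unfold tr
  rw [mul_pow, mul_pow, h1, h2]

/-- Powers of the form `a X ^ j = Y ^ 2`. -/
theorem pow_val (hq2 : 2 ≤ q) (g : K) (j : ℕ) (hj : j ≤ 2 * q) :
    g ^ (2 * q - j) * g ^ j = (g ^ q) ^ 2 := by
  rw [← pow_add, Nat.sub_add_cancel hj, ← pow_mul, mul_comm q 2]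

include hK in
theorem pow_val2 (hq2 : 2 ≤ q) (g : K) (j : ℕ) (hj : j ≤ 2 * q) :
    (g ^ (2 * q - j)) ^ q * (g ^ q) ^ j = (g ^ (q ^ 2)) ^ 2 ∧
    (g ^ (2 * q - j)) ^ (q ^ 2) * (g ^ (q ^ 2)) ^ j = g ^ 2 := by
  have sw : ∀ (x : K) (i : ℕ), (x ^ i) ^ q = (x ^ q) ^ i := by
    intro x i
    rw [← pow_mul, ← pow_mul, mul_comm]
  have h := pow_val hq2 g j hj
  have h1 := congrArg (fun x => x ^ q) h
  simp only [mul_pow] at h1
  rw [sw g j, sw (g ^ q) 2, Yq] at h1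
  have h3 := congrArg (fun x => x ^ q) h1
  simp only [mul_pow] at h3
  rw [sw (g ^ q) j, Yq g, sw (g ^ (q ^ 2)) 2, Zq hK, ← sq_frob (g ^ (2 * q - j))] at h3
  exact ⟨h1, h3⟩

include hq hadd hK in
/-- The first vector. -/
theorem expl_u (hq2 : 2 ≤ q) {g : K} (hg : g ≠ 0) {c y : K} (hc : c ^ q = c)
    (hy : y = c * ya g (g ^ q) (g ^ (q ^ 2))) :
    (g * g ^ q * g ^ (q ^ 2)) ^ 3 *
      (y * (tr q (g ^ 1 * y) * tr q (g ^ 2 * y) * tr q (g ^ 3 * y) * g +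
        tr q (g ^ 2 * y) * tr q (g ^ 3 * y) * tr q (g ^ (2 * q - 2) * y) * g ^ 2 +
        tr q (g ^ 3 * y) * tr q (g ^ (2 * q - 2) * y) * tr q (g ^ (2 * q - 1) * y) * g ^ 3 +
        tr q (g ^ (2 * q - 2) * y) * tr q (g ^ (2 * q - 1) * y) * tr q (g ^ (2 * q) * y) * g ^ 4)) =
      c ^ 4 * U g (g ^ q) (g ^ (q ^ 2)) := by
  have hY0 : g ^ q ≠ 0 := pow_ne_zero _ hg
  have hZ0 : g ^ (q ^ 2) ≠ 0 := pow_ne_zero _ hg
  have htr : ∀ a : K, tr q (a * y) =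
      c * ts g (g ^ q) (g ^ (q ^ 2)) a (a ^ q) (a ^ (q ^ 2)) := by
    intro a
    rw [← tr_ya hq hadd hK, ← tr_mul hc, hy]
    congr 1
    ring
  have hi : ∀ i : ℕ, tr q (g ^ i * y) = c * ti i g (g ^ q) (g ^ (q ^ 2)) := by
    intro i
    rw [htr, ti, ← pow_mul, ← pow_mul, ← pow_mul, ← pow_mul, mul_comm i q, mul_comm i (q ^ 2)]
  have h2q : tr q (g ^ (2 * q) * y) = c * tq g (g ^ q) (g ^ (q ^ 2)) := by
    have h := pow_val hq2 g 0 (by omega)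
    obtain ⟨h1, h2⟩ := pow_val2 hK hq2 g 0 (by omega)
    rw [Nat.sub_zero, pow_zero, mul_one] at h h1 h2
    rw [htr, tq, h2, h1, h]
  set X := g with hX
  set Y := X ^ q with hY
  set Z := X ^ (q ^ 2) with hZ
  have hA : (X * Y * Z) * tr q (X ^ (2 * q - 1) * y) = c * tA X Y Z := by
    have h := pow_val hq2 X 1 (by omega)
    obtain ⟨h1, h2⟩ := pow_val2 hK hq2 X 1 (by omega)
    rw [← hY, ← hZ, pow_one] at *
    rw [htr]
    unfold tA ts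
    linear_combination c * Y * Z * ya X Y Z * h + c * X * Z * ya Y Z X * h1 + c * X * Y * ya Z X Y * h2
  have hB : (X * Y * Z) ^ 2 * tr q (X ^ (2 * q - 2) * y) = c * tB X Y Z := by
    have h := pow_val hq2 X 2 (by omega)
    obtain ⟨h1, h2⟩ := pow_val2 hK hq2 X 2 (by omega)
    rw [← hY, ← hZ] at *
    rw [htr]
    unfold tB ts
    linear_combination c * Y ^ 2 * Z ^ 2 * ya X Y Z * h + c * X ^ 2 * Z ^ 2 * ya Y Z X * h1 +
      c * X ^ 2 * Y ^ 2 * ya Z X Y * h2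
  have hM : X * Y * Z ≠ 0 := mul_ne_zero (mul_ne_zero hg hY0) hZ0
  have hA' : tr q (X ^ (2 * q - 1) * y) = c * tA X Y Z / (X * Y * Z) := by
    rw [eq_div_iff hM, ← hA]; ring
  have hB' : tr q (X ^ (2 * q - 2) * y) = c * tB X Y Z / (X * Y * Z) ^ 2 := by
    rw [eq_div_iff (pow_ne_zero 2 hM), ← hB]; ring
  rw [hi 1, hi 2, hi 3, h2q, hA', hB', hy]
  unfold U
  field_simp

include hq hadd hK in
/-- The second vector. -/
theorem expl_w (hq2 : 2 ≤ q) {g : K} (hg : g ≠ 0) {c y : K} (hc : c ^ q = c)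
    (hy : y = c * yb g (g ^ q) (g ^ (q ^ 2))) :
    (g * g ^ q * g ^ (q ^ 2)) *
      (y * (tr q (g ^ 1 * y) * g + tr q (g ^ (2 * q - 2) * y) * g ^ 2)) =
      c ^ 2 * W g (g ^ q) (g ^ (q ^ 2)) := by
  have hY0 : g ^ q ≠ 0 := pow_ne_zero _ hg
  have hZ0 : g ^ (q ^ 2) ≠ 0 := pow_ne_zero _ hg
  have htr : ∀ a : K, tr q (a * y) =
      c * (a * yb g (g ^ q) (g ^ (q ^ 2)) + a ^ q * yb (g ^ q) (g ^ (q ^ 2)) g +
      a ^ (q ^ 2) * yb (g ^ (q ^ 2)) g (g ^ q)) := by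
    intro a
    rw [← tr_yb hq hadd hK, ← tr_mul hc, hy]
    congr 1
    ring
  have h1 : tr q (g ^ 1 * y) = c * sa g (g ^ q) (g ^ (q ^ 2)) := by
    rw [htr, pow_one]
    rfl
  set X := g with hX
  set Y := X ^ q with hY
  set Z := X ^ (q ^ 2) with hZ
  have hM : X * Y * Z ≠ 0 := mul_ne_zero (mul_ne_zero hg hY0) hZ0
  have hB : (X * Y * Z) * tr q (X ^ (2 * q - 2) * y) = c * sb X Y Z := by
    have h := pow_val hq2 X 2 (by omega)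
    obtain ⟨h1, h2⟩ := pow_val2 hK hq2 X 2 (by omega)
    rw [← hY, ← hZ] at *
    rw [htr]
    unfold sb yb
    linear_combination c * Y * Z * (Z ^ 3 - X ^ 2 * Y) * h + c * X * Z * (X ^ 3 - Y ^ 2 * Z) * h1 +
      c * X * Y * (Y ^ 3 - Z ^ 2 * X) * h2
  have hB' : tr q (X ^ (2 * q - 2) * y) = c * sb X Y Z / (X * Y * Z) := by
    rw [eq_div_iff hM, ← hB]; ring
  rw [h1, hB', hy]
  unfold W
  field_simp

end

end Pool.Agent.Sgq
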