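import Pool.Agent.Sgp.Singer

/-!
# The Singer set of a generator, MP_1e2239_co
-/

open Finset

namespace Pool.Agent.Sgq

open Pool.Agent.Sgp

variable {K : Type*} [Field K] [Fintype K] {q : ℕ}

theorem fix_pow (hcard : Fintype.card K = q ^ 3) (x : K) : x ^ (q ^ 3) = x := by
  have h := FiniteField.pow_card x
  rwa [hcard] at h

theorem ord_gen (hq2 : 2 ≤ q) (hcard : Fintype.card K = q ^ 3) (w : Kˣ)
    (hw : ∀ x : Kˣ, x ∈ Subgroup.zpowers w) : orderOf w = (q - 1) * (q ^ 2 + q + 1) := by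
  classical
  rw [orderOf_eq_card_of_forall_mem_zpowers hw, Nat.card_eq_fintype_card,
    Fintype.card_units, hcard]
  obtain ⟨r, hr⟩ : ∃ r, q = r + 1 := ⟨q - 1, by omega⟩
  rw [hr, Nat.add_sub_cancel]
  have : (r + 1) ^ 3 = r * ((r + 1) ^ 2 + (r + 1) + 1) + 1 := by ring
  rw [this, Nat.add_sub_cancel]

theorem sub_iff (hq2 : 2 ≤ q) (hcard : Fintype.card K = q ^ 3) (w : Kˣ)
    (hw : ∀ x : Kˣ, x ∈ Subgroup.zpowers w) (n : ℤ) :
    ((w ^ n : Kˣ) : K) ^ q = ((w ^ n : Kˣ) : K) ↔ ((q ^ 2 + q + 1 : ℕ) : ℤ) ∣ n := by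
  have hord := ord_gen hq2 hcard w hw
  have h1 : ((w ^ n : Kˣ) : K) ^ q = ((w ^ n : Kˣ) : K) ↔ (w ^ n) ^ ((q : ℤ)) = w ^ n := by
    rw [Units.ext_iff]
    push_cast
    rw [zpow_natCast]
  rw [h1, ← zpow_mul]
  have h2 : w ^ (n * (q : ℤ)) = w ^ n ↔ w ^ (n * ((q : ℤ) - 1)) = 1 := by
    rw [mul_sub, mul_one, zpow_sub, mul_inv_eq_one]
  rw [h2, ← orderOf_dvd_iff_zpow_eq_one, hord]
  have hq1 : ((q : ℤ) - 1) ≠ 0 := by
    have : (2 : ℤ) ≤ q := by exact_mod_cast hq2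
    omega
  have h3 : (((q - 1) * (q ^ 2 + q + 1) : ℕ) : ℤ) = ((q : ℤ) - 1) * ((q ^ 2 + q + 1 : ℕ) : ℤ) := by
    push_cast [Nat.cast_sub (by omega : 1 ≤ q)]
    ring
  rw [h3, mul_comm n]
  exact mul_dvd_mul_iff_left hq1

theorem pds_of_gen (hq2 : 2 ≤ q) (hadd : ∀ x y : K, (x + y) ^ q = x ^ q + y ^ q)
    (hcard : Fintype.card K = q ^ 3) (w : Kˣ) (hw : ∀ x : Kˣ, x ∈ Subgroup.zpowers w) :
    ∃ A : Finset (ZMod (q ^ 2 + q + 1)), PDS q (q ^ 2 + q + 1) A ∧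
      ∀ n : ℤ, ((n : ZMod (q ^ 2 + q + 1)) ∈ A ↔ tr q ((w ^ n : Kˣ) : K) = 0) := by
  classical
  have hK := fix_pow hcard
  have hsub := sub_iff hq2 hcard w hw
  set v := q ^ 2 + q + 1 with hv
  have : NeZero v := ⟨by omega⟩
  let S : ℤ → Prop := fun n => tr q ((w ^ n : Kˣ) : K) = 0
  have hS : ∀ n m : ℤ, (v : ℤ) ∣ n - m → (S n ↔ S m) := by
    intro n m h
    have h1 := (hsub (n - m)).2 h
    have h2 : ((w ^ n : Kˣ) : K) = ((w ^ (n - m) : Kˣ) : K) * ((w ^ m : Kˣ) : K) := by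
      rw [← Units.val_mul, ← zpow_add, sub_add_cancel]
    change tr q ((w ^ n : Kˣ) : K) = 0 ↔ tr q ((w ^ m : Kˣ) : K) = 0
    rw [h2, tr_mul h1, mul_eq_zero]
    exact ⟨fun h => h.resolve_left (Units.ne_zero _), Or.inr⟩
  let A : Finset (ZMod v) := univ.filter fun j => S (j.val : ℤ)
  have hA : ∀ n : ℤ, (n : ZMod v) ∈ A ↔ S n := by
    intro n
    rw [mem_filter]
    simp only [mem_univ, true_and]
    apply hS
    rw [← ZMod.intCast_zmod_eq_zero_iff_dvd]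
    push_cast
    rw [ZMod.natCast_val, ZMod.cast_id', id, sub_self]
  have hlift : ∀ a : ZMod v, ∃ n : ℤ, (n : ZMod v) = a := ZMod.intCast_surjective
  have hcastne : ∀ n : ℤ, (n : ZMod v) = 0 ↔ (v : ℤ) ∣ n := fun n =>
    ZMod.intCast_zmod_eq_zero_iff_dvd n v
  have hsidon : ∀ a ∈ A, ∀ b ∈ A, ∀ c ∈ A, ∀ d ∈ A, a ≠ b → a - b = c - d → a = c ∧ b = d := by
    intro a ha b hb c hc d hd hab habcd
    obtain ⟨b', rfl⟩ := hlift b
    obtain ⟨d', rfl⟩ := hlift d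
    obtain ⟨δ, hδ⟩ := hlift (a - (b' : ZMod v))
    have hδ0 : ¬ (v : ℤ) ∣ δ := by
      rw [← hcastne, hδ]
      exact sub_ne_zero.2 hab
    have ha' : a = ((δ + b' : ℤ) : ZMod v) := by push_cast; rw [hδ]; ring
    have hc' : c = ((δ + d' : ℤ) : ZMod v) := by push_cast; rw [hδ, habcd]; ring
    rw [ha', hA] at ha
    rw [hc', hA] at hc
    rw [hA] at hb hd
    have hg : ((w ^ δ : Kˣ) : K) ^ q ≠ ((w ^ δ : Kˣ) : K) := fun h => hδ0 ((hsub δ).1 h)
    have ha2 : tr q (((w ^ δ : Kˣ) : K) * ((w ^ b' : Kˣ) : K)) = 0 := by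
      rw [← Units.val_mul, ← zpow_add]; exact ha
    have hc2 : tr q (((w ^ δ : Kˣ) : K) * ((w ^ d' : Kˣ) : K)) = 0 := by
      rw [← Units.val_mul, ← zpow_add]; exact hc
    have hpr := prop hK hg hb ha2 hd hc2
    have hbd : (v : ℤ) ∣ b' - d' := by
      rw [← hsub]
      have hd0 : ((w ^ d' : Kˣ) : K) ≠ 0 := Units.ne_zero _
      have e1 : ((w ^ (b' - d') : Kˣ) : K) = ((w ^ b' : Kˣ) : K) / ((w ^ d' : Kˣ) : K) := by
        rw [zpow_sub, Units.val_mul, Units.val_inv_eq_inv_val, div_eq_mul_inv]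
      rw [e1, div_pow, div_eq_div_iff (pow_ne_zero _ hd0) hd0]
      linear_combination -hpr
    have hbd' : (b' : ZMod v) = (d' : ZMod v) := by
      rw [← sub_eq_zero]
      have := (hcastne (b' - d')).2 hbd
      push_cast at this
      exact this
    refine ⟨?_, hbd'⟩
    rw [ha', hc']
    push_cast
    rw [hbd']
  have hdiff : ∀ d : ZMod v, d ≠ 0 → ∃ a ∈ A, ∃ b ∈ A, a - b = d := by
    intro d _
    obtain ⟨δ, rfl⟩ := hlift d
    obtain ⟨x, hx0, hx1, hx2⟩ := exists_orth hq2 hadd hcard hK ((w ^ δ : Kˣ) : K)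
    obtain ⟨n, hn⟩ := hw (Units.mk0 x hx0)
    have hxn : x = ((w ^ n : Kˣ) : K) := by
      have : w ^ n = Units.mk0 x hx0 := hn
      rw [this]; rfl
    refine ⟨((δ + n : ℤ) : ZMod v), ?_, (n : ZMod v), ?_, by push_cast; ring⟩
    · rw [hA]
      change tr q ((w ^ (δ + n) : Kˣ) : K) = 0
      rw [zpow_add, Units.val_mul, ← hxn]
      exact hx2
    · rw [hA]
      change tr q ((w ^ n : Kˣ) : K) = 0
      rw [← hxn]
      exact hx1
  refine ⟨A, ⟨rfl, hq2, ?_, hsidon⟩, hA⟩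
  have h1 : A.offDiag.card = (univ.erase (0 : ZMod v)).card := by
    apply card_bij (fun p _ => p.1 - p.2)
    · intro p hp
      rw [mem_offDiag] at hp
      exact mem_erase.2 ⟨sub_ne_zero.2 hp.2.2, mem_univ _⟩
    · intro p hp p' hp' hpp
      rw [mem_offDiag] at hp hp'
      have := hsidon _ hp.1 _ hp.2.1 _ hp'.1 _ hp'.2.1 hp.2.2 hpp
      exact Prod.ext this.1 this.2
    · intro d hd
      obtain ⟨a, ha, b, hb, hab⟩ := hdiff d (ne_of_mem_erase hd)
      refine ⟨(a, b), ?_, hab⟩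
      rw [mem_offDiag]
      refine ⟨ha, hb, ?_⟩
      rw [← sub_ne_zero]
      simp only
      rw [hab]
      exact ne_of_mem_erase hd
  rw [offDiag_card, card_erase_of_mem (mem_univ _), card_univ, ZMod.card] at h1
  have hv1 : v - 1 = q ^ 2 + q := by omega
  rw [hv1] at h1
  have h2 : A.card * A.card = q ^ 2 + q + A.card := by
    have : A.card ≤ A.card * A.card := Nat.le_mul_self _
    omega
  by_contra hne
  rcases Nat.lt_or_gt_of_ne hne with h | h
  · nlinarith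
  · nlinarith

/-- A translate of a planar difference set. -/
theorem pds_shift {v : ℕ} [NeZero v] {A : Finset (ZMod v)} (h : PDS q v A) (k : ZMod v) :
    PDS q v (univ.filter fun s => s + k ∈ A) := by
  classical
  refine ⟨h.hv, h.hq, ?_, ?_⟩
  · rw [← h.card]
    apply card_bij (fun s _ => s + k)
    · intro s hs
      exact (mem_filter.1 hs).2
    · intro s _ s' _ e
      exact add_right_cancel e
    · intro a ha
      refine ⟨a - k, ?_, sub_add_cancel _ _⟩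
      rw [mem_filter, sub_add_cancel]
      exact ⟨mem_univ _, ha⟩
  · intro a ha b hb c hc d hd hab e
    have ha' := (mem_filter.1 ha).2
    have hb' := (mem_filter.1 hb).2
    have hc' := (mem_filter.1 hc).2
    have hd' := (mem_filter.1 hd).2
    obtain ⟨h1, h2⟩ := h.sidon _ ha' _ hb' _ hc' _ hd' (fun h => hab (add_right_cancel h))
      (by linear_combination e)
    exact ⟨add_right_cancel h1, add_right_cancel h2⟩

end Pool.Agent.Sgq
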