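import Pool.Agent.Sgq.Conic

/-!
# Proper prime powers, MP_1e2239_co
-/

open Finset

namespace Pool.Agent.Sgq

open Pool.Agent.Sgp

/-- For `r = p ^ s` odd, `r` not `2` modulo `3`, `m ≥ 2` and `q = r ^ m` large there is a Golomb ruler with `q + 1`
marks and length less than `q ^ 2 - q`. -/
theorem main : ∃ q₀ : ℕ, ∀ r m : ℕ, IsPrimePow r → Odd r → r % 3 ≠ 2 → 2 ≤ m → q₀ ≤ r ^ m →
    ∃ S : Finset ℕ, S.card = r ^ m + 1 ∧ (∀ x ∈ S, x + r ^ m < (r ^ m) ^ 2) ∧
      ∀ a ∈ S, ∀ b ∈ S, ∀ c ∈ S, ∀ d ∈ S, b < a → d < c → a - b = c - d → a = c ∧ b = d := by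
  classical
  obtain ⟨q₁, hq₁⟩ := many_units univG.natDegree
  refine ⟨max q₁ 5, fun r m hr hodd h3 hm hq => ?_⟩
  obtain ⟨p, s, hp, hs, rfl⟩ := hr
  have hp' : Nat.Prime p := hp.nat_prime
  have : Fact (Nat.Prime p) := ⟨hp'⟩
  set r := p ^ s with hr
  set q := r ^ m with hqd
  have hq1 : q₁ ≤ q := (le_max_left _ _).trans hq
  have hq5 : 5 ≤ q := (le_max_right _ _).trans hq
  have hqe : q = p ^ (s * m) := by rw [hqd, hr, ← pow_mul]
  have hr2 : 2 ≤ r := by
    calc 2 ≤ p := hp'.two_le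
      _ = p ^ 1 := (pow_one p).symm
      _ ≤ p ^ s := Nat.pow_le_pow_right hp'.pos hs
  have hrq : r < q := by
    calc r < r * r := by nlinarith
      _ = r ^ 2 := (pow_two r).symm
      _ ≤ r ^ m := Nat.pow_le_pow_right (by omega) hm
  have hsm : 3 * (s * m) ≠ 0 := by
    have : 0 < s * m := Nat.mul_pos hs (by omega)
    omega
  let K := GaloisField p (3 * (s * m))
  let _ : Fintype K := Fintype.ofFinite K
  have hcard : Fintype.card K = q ^ 3 := by
    rw [← Nat.card_eq_fintype_card]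
    change Nat.card (GaloisField p (3 * (s * m))) = _
    rw [GaloisField.card p (3 * (s * m)) hsm, hqe, ← pow_mul, mul_comm 3]
  have hadd : ∀ x y : K, (x + y) ^ q = x ^ q + y ^ q := by
    intro x y
    rw [hqe]
    exact add_pow_char_pow x y p (s * m)
  have haddr : ∀ x y : K, (x + y) ^ r = x ^ r + y ^ r := fun x y => add_pow_char_pow x y p s
  have h2 : (2 : K) ≠ 0 := by
    intro h0
    have h1 : ((2 : ℕ) : K) = 0 := by exact_mod_cast h0
    have h4 : p ∣ 2 := (CharP.cast_eq_zero_iff K p 2).1 h1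
    have h5 : p = 2 := (Nat.prime_dvd_prime_iff_eq hp' Nat.prime_two).1 h4
    rw [hr, h5] at hodd
    exact (Nat.not_odd_iff_even.2 ((even_two).pow_of_ne_zero hs.ne')) hodd
  obtain ⟨w, hw⟩ := IsCyclic.exists_generator (α := Kˣ)
  have hord := ord_gen (by omega : 2 ≤ q) hcard w hw
  -- the cube root of unity
  have hω : ∃ (ω : K) (k : ℤ), ω ^ 2 + ω + 1 = 0 ∧ ω ^ r = ω ∧ ω ^ q = ω ∧
      ((w ^ k : Kˣ) : K) ^ q = ω * ((w ^ k : Kˣ) : K) := by
    rcases (by omega : r % 3 = 0 ∨ r % 3 = 1) with h | h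
    · have hp3 : p = 3 := by
        have h4 : 3 ∣ p ^ s := Nat.dvd_of_mod_eq_zero h
        exact ((Nat.prime_dvd_prime_iff_eq Nat.prime_three hp').1
          (Nat.prime_three.dvd_of_dvd_pow h4)).symm
      refine ⟨1, 0, ?_, one_pow _, one_pow _, ?_⟩
      · have h4 : ((3 : ℕ) : K) = 0 := (CharP.cast_eq_zero_iff K p 3).2 (by rw [hp3])
        push_cast at h4
        linear_combination h4
      · rw [zpow_zero, Units.val_one, one_pow, one_mul]
    · have hrm : Nat.ModEq 3 r 1 := h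
      have hr1 : 3 ∣ r - 1 := (Nat.modEq_iff_dvd' (by omega)).1 hrm.symm
      have hqm : Nat.ModEq 3 q 1 := by
        have := Nat.ModEq.pow m hrm
        rwa [one_pow] at this
      have hq3 : 3 ∣ q - 1 := (Nat.modEq_iff_dvd' (by omega)).1 hqm.symm
      have hv3 : 3 ∣ q ^ 2 + q + 1 := by
        have h4 := ((hqm.pow 2).add hqm).add_right 1
        exact (Nat.modEq_zero_iff_dvd).1 (h4.trans (by decide))
      obtain ⟨c, hc⟩ := hv3
      set ω : Kˣ := w ^ ((q - 1) * c) with hωd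
      have hω3 : ω ^ 3 = 1 := by
        rw [hωd, ← pow_mul, ← orderOf_dvd_iff_pow_eq_one, hord, hc]
        exact ⟨1, by ring⟩
      have hc0 : 0 < c := by omega
      have hω1 : ω ≠ 1 := by
        intro h4
        rw [hωd, ← orderOf_dvd_iff_pow_eq_one, hord, hc] at h4
        have h5 := Nat.le_of_dvd (Nat.mul_pos (by omega) hc0) h4
        have h6 : 0 < (q - 1) * c := Nat.mul_pos (by omega) hc0
        have h7 : (q - 1) * (3 * c) = 3 * ((q - 1) * c) := by ring
        omega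
      have hωK : ((ω : Kˣ) : K) ^ 2 + ((ω : Kˣ) : K) + 1 = 0 := by
        have h4 : ((ω : Kˣ) : K) ^ 3 = 1 := by
          rw [← Units.val_pow_eq_pow_val, hω3, Units.val_one]
        have h5 : ((ω : Kˣ) : K) - 1 ≠ 0 := by
          intro h6
          apply hω1
          apply Units.ext
          rw [Units.val_one]
          exact sub_eq_zero.1 h6
        apply (mul_eq_zero.1 ?_).resolve_left h5
        linear_combination h4
      have hpw : ∀ n : ℕ, 3 ∣ n - 1 → 1 ≤ n → ((ω : Kˣ) : K) ^ n = ((ω : Kˣ) : K) := by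
        intro n hn h1
        obtain ⟨d, hd⟩ := hn
        have h4 : n = 3 * d + 1 := by omega
        rw [h4, pow_succ, pow_mul, ← Units.val_pow_eq_pow_val, hω3, Units.val_one, one_pow, one_mul]
      refine ⟨ω, c, hωK, hpw r hr1 (by omega), hpw q hq3 (by omega), ?_⟩
      rw [zpow_natCast, ← Units.val_pow_eq_pow_val, ← Units.val_mul, Units.val_inj, hωd, ← pow_mul,
        ← pow_add]
      congr 1
      obtain ⟨q', hq'⟩ : ∃ q', q = q' + 1 := ⟨q - 1, by omega⟩
      rw [hq', Nat.add_sub_cancel]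
      ring
  obtain ⟨ω, k, hω, hωr, hωq, hθ⟩ := hω
  obtain ⟨g, hg, x, hx⟩ := good_gen hq5 hr2 hrq hadd haddr hcard h2 w hw ω hω hωr hωq k hθ
    (fun hNe A hA => hq₁ q (q ^ 2 + q + 1) hq1 hNe A hA)
  obtain ⟨A, hA, hmem⟩ := pds_of_gen (by omega : 2 ≤ q) hadd hcard g hg
  obtain ⟨n, hn⟩ := hg x
  have hn' : g ^ n = x := hn
  obtain ⟨S, h4, h5, h6⟩ := ruler hA (G := 2 * q + 1) (by nlinarith) (n : ZMod (q ^ 2 + q + 1)) (by
    intro i hi h7
    have e : (n : ZMod (q ^ 2 + q + 1)) + (i : ZMod (q ^ 2 + q + 1)) =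
        ((i + n : ℤ) : ZMod (q ^ 2 + q + 1)) := by
      push_cast; ring
    rw [e, hmem, zpow_add, zpow_natCast, hn', Units.val_mul, Units.val_pow_eq_pow_val] at h7
    exact hx i hi h7)
  refine ⟨S, h4, fun y hy => ?_, h6⟩
  have h8 := h5 y hy
  omega

end Pool.Agent.Sgq
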