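import Pool.Agent.Sgq.Sum

/-!
# Gaps and the support of the products, MP_1e2239_co
-/

open Finset

namespace Pool.Agent.Sgq

open Pool.Agent.Sgp

variable {K : Type*} [Field K]

/-- `y` is the left end of a gap of length `G` in the direction `g`. -/
structure IsGap (q : ℕ) (g y : K) (G : ℕ) : Prop where
  left : tr q y = 0
  right : tr q (g ^ G * y) = 0
  inner : ∀ i, 1 ≤ i → i < G → tr q (g ^ i * y) ≠ 0

/-- Every window of nonzero values lies in a gap. -/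
theorem near_gap {q : ℕ} (g : Kˣ)
    (hcov : ∀ x : Kˣ, ∃ i : ℕ, i < 2 * q + 1 ∧ tr q ((g : K) ^ i * (x : K)) = 0) (x : Kˣ) (m : ℕ)
    (hx : ∀ i < m, tr q ((g : K) ^ i * (x : K)) ≠ 0) :
    ∃ (a G : ℕ) (y : Kˣ), 1 ≤ a ∧ a + m ≤ G ∧ G ≤ 2 * q + 1 ∧ x = g ^ a * y ∧
      IsGap q (g : K) (y : K) G := by
  classical
  have hex : ∃ a : ℕ, 1 ≤ a ∧ tr q ((((g ^ a)⁻¹ * x : Kˣ)) : K) = 0 := by
    obtain ⟨i, hi, h0⟩ := hcov ((g ^ (2 * q + 1))⁻¹ * x)
    refine ⟨2 * q + 1 - i, by omega, ?_⟩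
    have e : (((g ^ (2 * q + 1 - i))⁻¹ * x : Kˣ) : K) =
        (g : K) ^ i * (((g ^ (2 * q + 1))⁻¹ * x : Kˣ) : K) := by
      rw [← Units.val_pow_eq_pow_val, ← Units.val_mul, Units.val_inj, ← mul_assoc]
      congr 1
      rw [eq_mul_inv_iff_mul_eq, inv_mul_eq_iff_eq_mul, ← pow_add]
      congr 1
      omega
    rw [e]
    exact h0
  have ha := Nat.find_spec hex
  have hamin := fun k => Nat.find_min (m := k) hex
  set a := Nat.find hex with hadef
  set y : Kˣ := (g ^ a)⁻¹ * x with hy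
  have hxy : x = g ^ a * y := by rw [hy, mul_inv_cancel_left]
  have hex2 : ∃ G : ℕ, 1 ≤ G ∧ tr q ((g : K) ^ G * (y : K)) = 0 := by
    obtain ⟨i, hi, h0⟩ := hcov (g * y)
    refine ⟨i + 1, by omega, ?_⟩
    rw [Units.val_mul, ← mul_assoc, ← pow_succ] at h0
    exact h0
  have hG := Nat.find_spec hex2
  have hGmin := fun k => Nat.find_min (m := k) hex2
  set G := Nat.find hex2 with hGdef
  have hGle : G ≤ 2 * q + 1 := by
    obtain ⟨i, hi, h0⟩ := hcov (g * y)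
    rw [Units.val_mul, ← mul_assoc, ← pow_succ] at h0
    by_contra hcon
    exact hGmin (i + 1) (by omega) ⟨by omega, h0⟩
  refine ⟨a, G, y, ha.1, ?_, hGle, hxy, ha.2, hG.2, fun i hi1 hi2 h0 => hGmin i hi2 ⟨hi1, h0⟩⟩
  by_contra hcon
  rcases Nat.lt_or_ge G a with h | h
  · -- `G < a`
    apply hamin (a - G) (by omega)
    refine ⟨by omega, ?_⟩
    have e : (((g ^ (a - G))⁻¹ * x : Kˣ) : K) = (g : K) ^ G * (y : K) := by
      rw [← Units.val_pow_eq_pow_val, ← Units.val_mul, Units.val_inj, hy, ← mul_assoc]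
      congr 1
      rw [eq_mul_inv_iff_mul_eq, inv_mul_eq_iff_eq_mul, ← pow_add]
      congr 1
      omega
    rw [e]
    exact hG.2
  · apply hx (G - a) (by omega)
    have e : (g : K) ^ (G - a) * (x : K) = (g : K) ^ G * (y : K) := by
      rw [hxy, Units.val_mul, Units.val_pow_eq_pow_val, ← mul_assoc, ← pow_add]
      congr 2
      omega
    rw [e]
    exact hG.2

/-- Proportional vectors. -/
theorem scal {q : ℕ} (hK : ∀ x : K, x ^ (q ^ 3) = x) {g x y : K} (hx0 : x ≠ 0) (hy0 : y ≠ 0)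
    (hg : g ^ q ≠ g) (hx : tr q x = 0) (hgx : tr q (g * x) = 0) (hy : tr q y = 0)
    (hgy : tr q (g * y) = 0) : ∃ c : K, c ≠ 0 ∧ c ^ q = c ∧ x = c * y := by
  have h := prop hK hg hx hgx hy hgy
  refine ⟨x / y, div_ne_zero hx0 hy0, ?_, by field_simp⟩
  rw [div_pow, div_eq_div_iff (pow_ne_zero _ hy0) hy0]
  linear_combination -h

theorem scal_tr {q : ℕ} {c x y : K} (hc0 : c ≠ 0) (hc : c ^ q = c) (h : x = c * y) (z : K) :
    tr q (z * x) = 0 ↔ tr q (z * y) = 0 := by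
  have e : z * x = c * (z * y) := by rw [h]; ring
  rw [e, tr_mul hc, mul_eq_zero]
  exact ⟨fun h => h.resolve_left hc0, Or.inr⟩

/-- The gap `2 q` and the gap `2 q - 2` are excluded, so the support of the product is contained in six
classes. -/
theorem support {q r : ℕ} (hq : 5 ≤ q) (hr : 2 ≤ r) (hrq : r < q) (hK : ∀ x : K, x ^ (q ^ 3) = x)
    (g : Kˣ) (hpow : ∀ n : ℕ, 1 ≤ n → n ≤ 2 * q + 1 → ((g : K) ^ n) ^ q ≠ (g : K) ^ n)
    (hcov : ∀ x : Kˣ, ∃ i : ℕ, i < 2 * q + 1 ∧ tr q ((g : K) ^ i * (x : K)) = 0)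
    (θ : K) (hθ : θ ≠ 0) (h0 : tr q θ = 0) (h2 : tr q ((g : K) ^ 2 * θ) = 0)
    (h2r : tr q ((g : K) ^ (2 * r) * θ) = 0) (h2q : tr q ((g : K) ^ (2 * q) * θ) = 0)
    (x : Kˣ) (m : ℕ) (hm : 2 * q - 3 ≤ m) (hx : ∀ i < m, tr q ((g : K) ^ i * (x : K)) ≠ 0) :
    ∃ (a G : ℕ) (y : Kˣ), 1 ≤ a ∧ a + m ≤ G ∧ (G = 2 * q + 1 ∨ G = 2 * q - 1) ∧ x = g ^ a * y ∧
      IsGap q (g : K) (y : K) G := by
  obtain ⟨a, G, y, h1, hG1, hG2, hxy, hgap⟩ := near_gap g hcov x m hx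
  refine ⟨a, G, y, h1, hG1, ?_, hxy, hgap⟩
  by_contra hcon
  have hGc : G = 2 * q ∨ G = 2 * q - 2 := by omega
  rcases hGc with rfl | rfl
  · obtain ⟨c, hc0, hc, e⟩ := scal hK y.ne_zero hθ (hpow (2 * q) (by omega) (by omega)) hgap.left
      hgap.right h0 h2q
    apply hgap.inner 2 (by omega) (by omega)
    rw [scal_tr hc0 hc e]
    exact h2
  · have hg0 : (g : K) ≠ 0 := g.ne_zero
    obtain ⟨c, hc0, hc, e⟩ := scal hK y.ne_zero (mul_ne_zero (pow_ne_zero 2 hg0) hθ)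
      (hpow (2 * q - 2) (by omega) (by omega)) hgap.left hgap.right h2 (by
        rw [← mul_assoc, ← pow_add]
        have : 2 * q - 2 + 2 = 2 * q := by omega
        rw [this]
        exact h2q)
    apply hgap.inner (2 * r - 2) (by omega) (by omega)
    rw [scal_tr hc0 hc e, ← mul_assoc, ← pow_add]
    have : 2 * r - 2 + 2 = 2 * r := by omega
    rw [this]
    exact h2r

end Pool.Agent.Sgq
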