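import Pool.Agent.Sgq.Near

/-!
# The relation between the gaps `2 q + 1` and `2 q - 1`, MP_1e2239_co
-/

open Finset

namespace Pool.Agent.Sgq

open Pool.Agent.Sgp

variable {K : Type*} [Field K]

/-- The summand of the relation of level one. -/
def Hf (q : ℕ) (g x : K) : K := (∏ i ∈ range (2 * q - 3), tr q (g ^ i * x)) * x

theorem Hf_smul {q : ℕ} (hq : 2 ≤ q) (g x : K) {c : K} (hc0 : c ≠ 0) (hc : c ^ q = c) :
    Hf q g (c * x) = Hf q g x := by
  have h1 : c ^ (q - 1) = 1 := by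
    apply mul_left_cancel₀ hc0
    rw [← pow_succ', Nat.sub_add_cancel (by omega), hc, mul_one]
  have h2 : c ^ (2 * q - 3) * c = 1 := by
    rw [← pow_succ]
    have : 2 * q - 3 + 1 = (q - 1) * 2 := by omega
    rw [this, pow_mul, h1, one_pow]
  unfold Hf
  have h3 : ∀ i ∈ range (2 * q - 3), tr q (g ^ i * (c * x)) = c * tr q (g ^ i * x) := by
    intro i _
    rw [← tr_mul hc]
    congr 1
    ring
  rw [prod_congr rfl h3, prod_mul_distrib, prod_const, card_range]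
  linear_combination (∏ i ∈ range (2 * q - 3), tr q (g ^ i * x)) * x * h2

/-- The values of `Hf` at the points of a gap `2 q + 1`. -/
theorem Hf_vals {q n : ℕ} (hn : 2 * q = n + 6) (g y : K) :
    Hf q g (g * y) + Hf q g (g ^ 2 * y) + Hf q g (g ^ 3 * y) + Hf q g (g ^ 4 * y) =
      (∏ i ∈ range n, tr q (g ^ (i + 4) * y)) *
      (y * (tr q (g ^ 1 * y) * tr q (g ^ 2 * y) * tr q (g ^ 3 * y) * g +
        tr q (g ^ 2 * y) * tr q (g ^ 3 * y) * tr q (g ^ (2 * q - 2) * y) * g ^ 2 +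
        tr q (g ^ 3 * y) * tr q (g ^ (2 * q - 2) * y) * tr q (g ^ (2 * q - 1) * y) * g ^ 3 +
        tr q (g ^ (2 * q - 2) * y) * tr q (g ^ (2 * q - 1) * y) * tr q (g ^ (2 * q) * y) * g ^ 4)) := by
  have e3 : 2 * q - 3 = n + 3 := by omega
  have e2 : 2 * q - 2 = n + 4 := by omega
  have e1 : 2 * q - 1 = n + 5 := by omega
  have key : ∀ j : ℕ, Hf q g (g ^ j * y) =
      (∏ i ∈ range (n + 3), tr q (g ^ (i + j) * y)) * (g ^ j * y) := by
    intro j
    unfold Hf
    rw [e3]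
    congr 1
    apply prod_congr rfl
    intro i _
    rw [← mul_assoc, ← pow_add]
  have k1 := key 1
  rw [pow_one] at k1
  rw [k1, key 2, key 3, key 4, e2, e1, hn]
  have p1 : ∏ i ∈ range (n + 3), tr q (g ^ (i + 1) * y) =
      (∏ i ∈ range n, tr q (g ^ (i + 4) * y)) * tr q (g ^ 3 * y) * tr q (g ^ 2 * y) *
        tr q (g ^ 1 * y) := by
    rw [prod_range_succ', prod_range_succ', prod_range_succ']
  have p2 : ∏ i ∈ range (n + 3), tr q (g ^ (i + 2) * y) =
      (∏ i ∈ range n, tr q (g ^ (i + 4) * y)) * tr q (g ^ 3 * y) * tr q (g ^ 2 * y) *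
        tr q (g ^ (n + 4) * y) := by
    rw [prod_range_succ, prod_range_succ', prod_range_succ']
  have p3 : ∏ i ∈ range (n + 3), tr q (g ^ (i + 3) * y) =
      (∏ i ∈ range n, tr q (g ^ (i + 4) * y)) * tr q (g ^ 3 * y) *
        tr q (g ^ (n + 4) * y) * tr q (g ^ (n + 5) * y) := by
    rw [prod_range_succ, prod_range_succ, prod_range_succ']
  have p4 : ∏ i ∈ range (n + 3), tr q (g ^ (i + 4) * y) =
      (∏ i ∈ range n, tr q (g ^ (i + 4) * y)) *
        tr q (g ^ (n + 4) * y) * tr q (g ^ (n + 5) * y) * tr q (g ^ (n + 6) * y) := by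
    rw [prod_range_succ, prod_range_succ, prod_range_succ]
  rw [p1, p2, p3, p4]
  ring

theorem Hf_vals2 {q n : ℕ} (hn : 2 * q = n + 6) (g y : K) :
    Hf q g (g * y) + Hf q g (g ^ 2 * y) =
      (∏ i ∈ range (n + 2), tr q (g ^ (i + 2) * y)) *
      (y * (tr q (g ^ 1 * y) * g + tr q (g ^ (2 * q - 2) * y) * g ^ 2)) := by
  have e3 : 2 * q - 3 = n + 3 := by omega
  have e2 : 2 * q - 2 = n + 4 := by omega
  have key : ∀ j : ℕ, Hf q g (g ^ j * y) =
      (∏ i ∈ range (n + 3), tr q (g ^ (i + j) * y)) * (g ^ j * y) := by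
    intro j
    unfold Hf
    rw [e3]
    congr 1
    apply prod_congr rfl
    intro i _
    rw [← mul_assoc, ← pow_add]
  have k1 := key 1
  rw [pow_one] at k1
  rw [k1, key 2, e2]
  have p1 : ∏ i ∈ range (n + 3), tr q (g ^ (i + 1) * y) =
      (∏ i ∈ range (n + 2), tr q (g ^ (i + 2) * y)) * tr q (g ^ 1 * y) := by
    rw [prod_range_succ']
  have p2 : ∏ i ∈ range (n + 3), tr q (g ^ (i + 2) * y) =
      (∏ i ∈ range (n + 2), tr q (g ^ (i + 2) * y)) * tr q (g ^ (n + 4) * y) := by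
    rw [prod_range_succ]
  rw [p1, p2]
  ring

variable [Fintype K] [DecidableEq K]

/-- The subfield units. -/
def Cs (K : Type*) [Field K] [Fintype K] [DecidableEq K] (q : ℕ) : Finset Kˣ :=
  univ.filter fun c : Kˣ => (c : K) ^ q = c

theorem Cs_card {q : ℕ} (hq2 : 2 ≤ q) (hcard : Fintype.card K = q ^ 3) (g : Kˣ)
    (hg : ∀ x : Kˣ, x ∈ Subgroup.zpowers g) : (Cs K q).card = q - 1 := by
  have hord := ord_gen hq2 hcard g hg
  set v := q ^ 2 + q + 1 with hv
  have h1 : Cs K q = (range (q - 1)).image fun j => g ^ (v * j) := by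
    ext c
    rw [Cs, mem_filter, mem_image]
    constructor
    · rintro ⟨-, hc⟩
      obtain ⟨n, hn⟩ := hg c
      have hn' : g ^ n = c := hn
      rw [← hn', sub_iff hq2 hcard g hg] at hc
      obtain ⟨k, hk⟩ := hc
      refine ⟨(k % ((q - 1 : ℕ) : ℤ)).toNat, ?_, ?_⟩
      · rw [mem_range]
        have h2 : (0 : ℤ) < ((q - 1 : ℕ) : ℤ) := by
          have : 0 < q - 1 := by omega
          exact_mod_cast this
        have h3 := Int.emod_lt_of_pos k h2
        have h4 := Int.emod_nonneg k h2.ne'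
        omega
      · rw [← hn', ← zpow_natCast, zpow_eq_zpow_iff_modEq, hord]
        have h2 : (0 : ℤ) < ((q - 1 : ℕ) : ℤ) := by
          have : 0 < q - 1 := by omega
          exact_mod_cast this
        have h4 := Int.emod_nonneg k h2.ne'
        push_cast [Int.toNat_of_nonneg h4]
        rw [Int.modEq_iff_dvd]
        refine ⟨k / ((q - 1 : ℕ) : ℤ), ?_⟩
        have h5 := Int.emod_add_mul_ediv k ((q - 1 : ℕ) : ℤ)
        rw [hk]
        push_cast
        have hvz : (v : ℤ) = (q : ℤ) ^ 2 + q + 1 := by rw [hv]; push_cast; ring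
        linear_combination (-(v : ℤ)) * h5 - k * hvz
    · rintro ⟨j, -, rfl⟩
      refine ⟨mem_univ _, ?_⟩
      have := (sub_iff hq2 hcard g hg ((v * j : ℕ) : ℤ)).2 (by push_cast; exact dvd_mul_right _ _)
      rw [zpow_natCast] at this
      exact this
  rw [h1, card_image_of_injOn, card_range]
  intro i hi j hj e
  rw [coe_range, Set.mem_Iio] at hi hj
  have hv0 : 0 < v := by omega
  have h2 : v * i = v * j := by
    apply pow_injOn_Iio_orderOf _ _ e
    · rw [Set.mem_Iio, hord, mul_comm]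
      exact Nat.mul_lt_mul_of_pos_right hi hv0
    · rw [Set.mem_Iio, hord, mul_comm]
      exact Nat.mul_lt_mul_of_pos_right hj hv0
  exact Nat.eq_of_mul_eq_mul_left hv0 h2

theorem Cs_ne_zero {q : ℕ} (hq2 : 2 ≤ q) (hcard : Fintype.card K = q ^ 3) (g : Kˣ)
    (hg : ∀ x : Kˣ, x ∈ Subgroup.zpowers g) : ((Cs K q).card : K) ≠ 0 := by
  rw [Cs_card hq2 hcard g hg]
  have h1 : ((Fintype.card K : ℕ) : K) = 0 := FiniteField.cast_card_eq_zero K
  rw [hcard] at h1
  push_cast at h1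
  have h2 : (q : K) = 0 := pow_eq_zero_iff (by norm_num) |>.1 h1
  rw [Nat.cast_sub (by omega), h2]
  norm_num

theorem Cs_mul {q : ℕ} {c d : Kˣ} (hc : c ∈ Cs K q) (hd : d ∈ Cs K q) : c * d ∈ Cs K q := by
  rw [Cs, mem_filter] at *
  refine ⟨mem_univ _, ?_⟩
  rw [Units.val_mul, mul_pow, hc.2, hd.2]

theorem Cs_inv {q : ℕ} {c : Kˣ} (hc : c ∈ Cs K q) : c⁻¹ ∈ Cs K q := by
  rw [Cs, mem_filter] at *
  refine ⟨mem_univ _, ?_⟩
  rw [Units.val_inv_eq_inv_val, inv_pow, hc.2]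

/-- Sums over classes. -/
theorem sum_classes {q : ℕ} (H : Kˣ → K) (hH : ∀ c ∈ Cs K q, ∀ x, H (c * x) = H x) (ι : Finset ℕ)
    (p : ℕ → Kˣ) (hinj : ∀ j ∈ ι, ∀ j' ∈ ι, ∀ c ∈ Cs K q, p j = c * p j' → j = j')
    (hsupp : ∀ x, H x ≠ 0 → ∃ j ∈ ι, ∃ c ∈ Cs K q, x = c * p j) :
    ∑ x, H x = ((Cs K q).card : K) * ∑ j ∈ ι, H (p j) := by
  have h1 : ∑ x ∈ ι.biUnion (fun j => (Cs K q).image fun c => c * p j), H x = ∑ x, H x := by
    apply sum_subset (subset_univ _)
    intro x _ hx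
    by_contra h0
    obtain ⟨j, hj, c, hc, e⟩ := hsupp x h0
    apply hx
    rw [mem_biUnion]
    exact ⟨j, hj, mem_image.2 ⟨c, hc, e.symm⟩⟩
  rw [← h1, sum_biUnion, mul_sum]
  · apply sum_congr rfl
    intro j _
    rw [sum_image (fun a _ b _ e => mul_right_cancel e), sum_congr rfl (fun c hc => hH c hc (p j)),
      sum_const, nsmul_eq_mul]
  · intro j hj j' hj' hne
    rw [Function.onFun, disjoint_left]
    intro x hx hx'
    obtain ⟨c, hc, e⟩ := mem_image.1 hx
    obtain ⟨c', hc', e'⟩ := mem_image.1 hx'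
    apply hne
    apply hinj j hj j' hj' (c⁻¹ * c') (Cs_mul (Cs_inv hc) hc')
    rw [mul_assoc, e', ← e, inv_mul_cancel_left]

end Pool.Agent.Sgq
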