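import Pool.Agent.Sgq.Expl

/-!
# If every window of length `2 q + 1` is hit then `G` vanishes, MP_1e2239_co
-/

open Finset

namespace Pool.Agent.Sgq

open Pool.Agent.Sgp

variable {K : Type*} [Field K] {q : ℕ}

theorem fix_of_eq (hK : ∀ x : K, x ^ (q ^ 3) = x) {a : K} (h : a ^ q = a ^ (q ^ 2)) : a ^ q = a := by
  have h1 := congrArg (fun x => x ^ (q ^ 2)) h
  simp only [← pow_mul] at h1
  have e1 : q * q ^ 2 = q ^ 3 := by ring
  have e2 : q ^ 2 * q ^ 2 = q ^ 3 * q := by ring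
  rw [e1, e2, pow_mul a (q ^ 3) q, hK] at h1
  exact h1.symm

section

variable (hq0 : q ≠ 0) (hadd : ∀ x y : K, (x + y) ^ q = x ^ q + y ^ q)
  (hK : ∀ x : K, x ^ (q ^ 3) = x)

include hq0 hadd hK in
theorem ya_orth (g : K) : tr q (ya g (g ^ q) (g ^ (q ^ 2))) = 0 ∧
    tr q (g ^ (2 * q + 1) * ya g (g ^ q) (g ^ (q ^ 2))) = 0 := by
  constructor
  · have h := tr_ya hq0 hadd hK g 1
    rw [one_mul, one_pow, one_pow] at h
    rw [h]
    unfold ts ya
    ring
  · rw [tr_ya hq0 hadd hK g (g ^ (2 * q + 1))]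
    have e0 : g ^ (2 * q + 1) = (g ^ q) ^ 2 * g := by
      rw [pow_succ, mul_comm 2 q, pow_mul]
    have e1 : (g ^ (2 * q + 1)) ^ q = (g ^ (q ^ 2)) ^ 2 * g ^ q := by
      rw [e0, mul_pow, ← Yq g, ← pow_mul, ← pow_mul, ← pow_mul, ← pow_mul]
      ring
    have e2 : (g ^ (2 * q + 1)) ^ (q ^ 2) = g ^ 2 * g ^ (q ^ 2) := by
      rw [sq_frob, e1, mul_pow, Yq g]
      congr 1
      rw [← pow_mul, mul_comm 2 q, pow_mul, Zq hK]
    rw [e1, e2, e0]
    unfold ts ya
    ring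

include hq0 hadd hK in
theorem yb_orth (hq2 : 2 ≤ q) {g : K} (hg : g ≠ 0) : tr q (yb g (g ^ q) (g ^ (q ^ 2))) = 0 ∧
    tr q (g ^ (2 * q - 1) * yb g (g ^ q) (g ^ (q ^ 2))) = 0 := by
  constructor
  · have h := tr_yb hq0 hadd hK g 1
    rw [one_mul, one_pow, one_pow, one_mul] at h
    try rw [one_mul] at h
    try rw [one_mul] at h
    rw [h]
    unfold yb
    ring
  · rw [tr_yb hq0 hadd hK g (g ^ (2 * q - 1))]
    have h := pow_val hq2 g 1 (by omega)
    obtain ⟨h1, h2⟩ := pow_val2 hK hq2 g 1 (by omega)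
    rw [pow_one] at h h1 h2
    unfold yb
    linear_combination ((g ^ (q ^ 2)) ^ 3 - g ^ 2 * g ^ q) * h + (g ^ 3 - (g ^ q) ^ 2 * g ^ (q ^ 2)) * h1 +
      ((g ^ q) ^ 3 - (g ^ (q ^ 2)) ^ 2 * g) * h2

include hK in
theorem ya_ne {g : K} (h : (g ^ (2 * q + 1)) ^ q ≠ g ^ (2 * q + 1)) :
    ya g (g ^ q) (g ^ (q ^ 2)) ≠ 0 := by
  intro h0
  apply h
  apply fix_of_eq hK
  have e0 : g ^ (2 * q + 1) = (g ^ q) ^ 2 * g := by
    rw [pow_succ, mul_comm 2 q, pow_mul]
  have e1 : (g ^ (2 * q + 1)) ^ q = (g ^ (q ^ 2)) ^ 2 * g ^ q := by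
    rw [e0, mul_pow, ← Yq g, ← pow_mul, ← pow_mul, ← pow_mul, ← pow_mul]
    ring
  have e2 : (g ^ (2 * q + 1)) ^ (q ^ 2) = g ^ 2 * g ^ (q ^ 2) := by
    rw [sq_frob, e1, mul_pow, Yq g]
    congr 1
    rw [← pow_mul, mul_comm 2 q, pow_mul, Zq hK]
  rw [e1, e2]
  unfold ya at h0
  linear_combination h0

include hK in
theorem yb_ne (hq2 : 2 ≤ q) {g : K} (hg : g ≠ 0)
    (h : (g ^ (2 * q - 1)) ^ q ≠ g ^ (2 * q - 1)) :
    yb g (g ^ q) (g ^ (q ^ 2)) ≠ 0 := by
  intro h0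
  apply h
  apply fix_of_eq hK
  obtain ⟨h1, h2⟩ := pow_val2 hK hq2 g 1 (by omega)
  rw [pow_one] at h1 h2
  have hY0 : g ^ q ≠ 0 := pow_ne_zero _ hg
  have hZ0 : g ^ (q ^ 2) ≠ 0 := pow_ne_zero _ hg
  have h3 : (g ^ (q ^ 2)) ^ 3 - g ^ 2 * g ^ q = 0 := by
    unfold yb at h0
    exact (mul_eq_zero.1 h0).resolve_left hg
  apply mul_right_cancel₀ (mul_ne_zero hY0 hZ0)
  linear_combination (g ^ (q ^ 2)) * h1 - g ^ q * h2 + h3

end

variable [Fintype K] [DecidableEq K]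

/-- If every window of length `2 q + 1` is hit and `θ` gives the two exclusions, then `G` vanishes. -/
theorem gap_step {r : ℕ} (hq : 5 ≤ q) (hr : 2 ≤ r) (hrq : r < q)
    (hadd : ∀ x y : K, (x + y) ^ q = x ^ q + y ^ q) (hcard : Fintype.card K = q ^ 3)
    (w : Kˣ) (hw : ∀ x : Kˣ, x ∈ Subgroup.zpowers w)
    (g : Kˣ) (hpow : ∀ n : ℕ, 1 ≤ n → n ≤ 2 * q + 1 → ((g : K) ^ n) ^ q ≠ (g : K) ^ n)
    (hcov : ∀ x : Kˣ, ∃ i : ℕ, i < 2 * q + 1 ∧ tr q ((g : K) ^ i * (x : K)) = 0)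
    (θ : K) (hθ : θ ≠ 0) (h0 : tr q θ = 0) (h2 : tr q ((g : K) ^ 2 * θ) = 0)
    (h2r : tr q ((g : K) ^ (2 * r) * θ) = 0) (h2q : tr q ((g : K) ^ (2 * q) * θ) = 0) :
    G (g : K) ((g : K) ^ q) ((g : K) ^ (q ^ 2)) = 0 := by
  classical
  have hK := fix_pow hcard
  have hq0 : q ≠ 0 := by omega
  have hg0 : (g : K) ≠ 0 := g.ne_zero
  -- the gap `2 q + 1`
  obtain ⟨x0, hx0, hx0w⟩ := exists_window (by omega : 2 ≤ q) hcard hg0 (by
    intro j hj1 hj2 e
    apply hpow j hj1 (by omega)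
    have e1 : ((g : K) ^ (q - 1)) ^ j = ((g : K) ^ j) ^ (q - 1) := by
      rw [← pow_mul, ← pow_mul, mul_comm]
    rw [e1] at e
    calc ((g : K) ^ j) ^ q = ((g : K) ^ j) ^ (q - 1) * (g : K) ^ j := by
          rw [← pow_succ, Nat.sub_add_cancel (by omega)]
      _ = (g : K) ^ j := by rw [e, one_mul])
  obtain ⟨a1, G1, y1, ha1, haG1, hG1, -, hgap1⟩ := support hq hr hrq hK g hpow hcov θ hθ h0 h2 h2r h2q
    (Units.mk0 x0 hx0) (2 * q - 1) (by omega) hx0w
  have hG1' : G1 = 2 * q + 1 := by omega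
  subst hG1'
  -- the candidate for the gap `2 q - 1`
  obtain ⟨y2', hy20, hy2a, hy2b⟩ := exists_orth (by omega : 2 ≤ q) hadd hcard hK ((g : K) ^ (2 * q - 1))
  set y2 : Kˣ := Units.mk0 y2' hy20 with hy2
  have hy2v : (y2 : K) = y2' := rfl
  rw [← hy2v] at hy2a hy2b
  -- the six classes
  let p : ℕ → Kˣ := fun j => if j < 4 then g ^ (j + 1) * y1 else g ^ (j - 3) * y2
  have hp1 : ∀ j, j < 4 → p j = g ^ (j + 1) * y1 := fun j hj => if_pos hj
  have hp2 : ∀ j, 4 ≤ j → p j = g ^ (j - 3) * y2 := fun j hj => if_neg (by omega)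
  have hCs : ∀ c ∈ Cs K q, (c : K) ≠ 0 ∧ (c : K) ^ q = c := fun c hc => by
    rw [Cs, mem_filter] at hc
    exact ⟨c.ne_zero, hc.2⟩
  have hsum : ∑ x : Kˣ, Hf q (g : K) (x : K) = 0 := sum_zero (by omega) hcard (g : K)
  -- powers of `g` are independent
  have hind : ∀ (a b : ℕ) (c y : Kˣ), c ∈ Cs K q → a < b → b ≤ 2 * q + 1 → g ^ b * y = c * (g ^ a * y) →
      False := by
    intro a b c y hc hab hb e
    obtain ⟨-, hcq⟩ := hCs c hc
    have e1 : g ^ (b - a) = c := by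
      have h3 : g ^ b = g ^ (b - a) * g ^ a := by
        rw [← pow_add, Nat.sub_add_cancel hab.le]
      rw [h3, mul_assoc] at e
      exact mul_right_cancel e
    apply hpow (b - a) (by omega) (by omega)
    rw [← Units.val_pow_eq_pow_val, e1]
    exact hcq
  have hmix : ∀ (a b : ℕ) (c : Kˣ), c ∈ Cs K q → 1 ≤ a → a ≤ 4 → 1 ≤ b → b ≤ 2 →
      g ^ a * y1 = c * (g ^ b * y2) → False := by
    intro a b c hc ha1 ha4 hb1 hb2 e
    obtain ⟨hc0, hcq⟩ := hCs c hc
    have eK : (g : K) ^ a * (y1 : K) = (c : K) * ((g : K) ^ b * (y2 : K)) := by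
      have := congrArg (fun u : Kˣ => (u : K)) e
      simpa using this
    rcases Nat.lt_or_ge b a with h | h
    · have e1 : (g : K) ^ (a - b) * (y1 : K) = (c : K) * (y2 : K) := by
        apply mul_left_cancel₀ (pow_ne_zero b hg0)
        rw [← mul_assoc, ← pow_add, Nat.add_sub_cancel' h.le, eK]
        ring
      apply hgap1.inner (a - b) (by omega) (by omega)
      rw [e1, tr_mul hcq, hy2a, mul_zero]
    · have e1 : (g : K) ^ (2 * q - 1 - b + a) * (y1 : K) = (c : K) * ((g : K) ^ (2 * q - 1) * (y2 : K)) := by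
        have h3 : (g : K) ^ (2 * q - 1) = (g : K) ^ (2 * q - 1 - b) * (g : K) ^ b := by
          rw [← pow_add, Nat.sub_add_cancel (by omega)]
        rw [pow_add, mul_assoc, eK, h3]
        ring
      apply hgap1.inner (2 * q - 1 - b + a) (by omega) (by omega)
      rw [e1, tr_mul hcq, hy2b, mul_zero]
  have hclass := sum_classes (q := q) (fun x : Kˣ => Hf q (g : K) (x : K))
    (by
      intro c hc x
      obtain ⟨hc0, hcq⟩ := hCs c hc
      change Hf q (g : K) ((c * x : Kˣ) : K) = _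
      rw [Units.val_mul, Hf_smul (by omega) _ _ hc0 hcq])
    (range 6) p
    (by
      intro j hj j' hj' c hc e
      rw [mem_range] at hj hj'
      rcases Nat.lt_or_ge j 4 with h4 | h4 <;> rcases Nat.lt_or_ge j' 4 with h4' | h4'
      · rw [hp1 j h4, hp1 j' h4'] at e
        rcases Nat.lt_trichotomy j j' with h | h | h
        · exfalso
          apply hind (j + 1) (j' + 1) c⁻¹ y1 (Cs_inv hc) (by omega) (by omega)
          rw [e, inv_mul_cancel_left]
        · exact h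
        · exfalso
          exact hind (j' + 1) (j + 1) c y1 hc (by omega) (by omega) e
      · rw [hp1 j h4, hp2 j' h4'] at e
        exact (hmix (j + 1) (j' - 3) c hc (by omega) (by omega) (by omega) (by omega) e).elim
      · rw [hp2 j h4, hp1 j' h4'] at e
        refine (hmix (j' + 1) (j - 3) c⁻¹ (Cs_inv hc) (by omega) (by omega) (by omega) (by omega) ?_).elim
        rw [e, inv_mul_cancel_left]
      · rw [hp2 j h4, hp2 j' h4'] at e
        rcases Nat.lt_trichotomy j j' with h | h | h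
        · exfalso
          apply hind (j - 3) (j' - 3) c⁻¹ y2 (Cs_inv hc) (by omega) (by omega)
          rw [e, inv_mul_cancel_left]
        · exact h
        · exfalso
          exact hind (j' - 3) (j - 3) c y2 hc (by omega) (by omega) e)
    (by
      intro x hx
      have hx' : Hf q (g : K) (x : K) ≠ 0 := hx
      have hne : ∀ i < 2 * q - 3, tr q ((g : K) ^ i * (x : K)) ≠ 0 := by
        intro i hi h3
        apply hx'
        unfold Hf
        rw [prod_eq_zero (mem_range.2 hi) h3, zero_mul]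
      obtain ⟨a, G2, y, ha, haG, hG, hxy, hgap⟩ := support hq hr hrq hK g hpow hcov θ hθ h0 h2 h2r h2q
        x (2 * q - 3) (by omega) hne
      rcases hG with rfl | rfl
      · obtain ⟨c, hc0, hc, e⟩ := scal hK y.ne_zero y1.ne_zero (hpow (2 * q + 1) (by omega) (by omega))
          hgap.left hgap.right hgap1.left hgap1.right
        refine ⟨a - 1, mem_range.2 (by omega), Units.mk0 c hc0, ?_, ?_⟩
        · rw [Cs, mem_filter]
          exact ⟨mem_univ _, hc⟩
        · rw [hp1 _ (by omega), Nat.sub_add_cancel ha, hxy]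
          apply Units.ext
          push_cast
          rw [Units.val_mk0, e]
          ring
      · obtain ⟨c, hc0, hc, e⟩ := scal hK y.ne_zero y2.ne_zero (hpow (2 * q - 1) (by omega) (by omega))
          hgap.left hgap.right hy2a hy2b
        refine ⟨a + 3, mem_range.2 (by omega), Units.mk0 c hc0, ?_, ?_⟩
        · rw [Cs, mem_filter]
          exact ⟨mem_univ _, hc⟩
        · rw [hp2 _ (by omega), Nat.add_sub_cancel, hxy]
          apply Units.ext
          push_cast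
          rw [Units.val_mk0, e]
          ring)
  rw [hsum] at hclass
  have hcne := Cs_ne_zero (by omega : 2 ≤ q) hcard w hw
  have h6 := (mul_eq_zero.1 hclass.symm).resolve_left hcne
  rw [sum_range_succ, sum_range_succ, sum_range_succ, sum_range_succ, sum_range_succ, sum_range_one,
    hp1 0 (by omega), hp1 1 (by omega), hp1 2 (by omega), hp1 3 (by omega), hp2 4 (by omega),
    hp2 5 (by omega)] at h6
  push_cast at h6
  simp only [pow_one] at h6
  obtain ⟨n, hn⟩ : ∃ n, 2 * q = n + 6 := ⟨2 * q - 6, by omega⟩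
  have hv1 := Hf_vals hn (g : K) (y1 : K)
  have hv2 := Hf_vals2 hn (g : K) (y2 : K)
  -- explicit vectors
  obtain ⟨c1, hc10, hc1, e1⟩ := scal hK y1.ne_zero (ya_ne hK (hpow (2 * q + 1) (by omega) (by omega)))
    (hpow (2 * q + 1) (by omega) (by omega)) hgap1.left hgap1.right (ya_orth hq0 hadd hK (g : K)).1
    (ya_orth hq0 hadd hK (g : K)).2
  obtain ⟨c2, hc20, hc2, e2⟩ := scal hK y2.ne_zero
    (yb_ne hK (by omega) hg0 (hpow (2 * q - 1) (by omega) (by omega)))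
    (hpow (2 * q - 1) (by omega) (by omega)) hy2a hy2b (yb_orth hq0 hadd hK (by omega) hg0).1
    (yb_orth hq0 hadd hK (by omega) hg0).2
  have hu := expl_u hq0 hadd hK (by omega) hg0 hc1 e1
  have hwv := expl_w hq0 hadd hK (by omega) hg0 hc2 e2
  set P1 := ∏ i ∈ range n, tr q ((g : K) ^ (i + 4) * (y1 : K)) with hP1
  set P2 := ∏ i ∈ range (n + 2), tr q ((g : K) ^ (i + 2) * (y2 : K)) with hP2
  set M := (g : K) * (g : K) ^ q * (g : K) ^ (q ^ 2) with hM
  have hP10 : P1 ≠ 0 := by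
    rw [hP1, prod_ne_zero_iff]
    intro i hi
    rw [mem_range] at hi
    exact hgap1.inner (i + 4) (by omega) (by omega)
  have hP1q : P1 ^ q = P1 := by
    rw [hP1, ← prod_pow]
    exact prod_congr rfl fun i _ => tr_fix hadd hK _
  have hP2q : P2 ^ q = P2 := by
    rw [hP2, ← prod_pow]
    exact prod_congr rfl fun i _ => tr_fix hadd hK _
  have hM0 : M ≠ 0 := mul_ne_zero (mul_ne_zero hg0 (pow_ne_zero _ hg0)) (pow_ne_zero _ hg0)
  have hMq : M ^ q = M := by
    rw [hM, mul_pow, mul_pow, Yq, Zq hK]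
    ring
  have hUq := (frob_fun hq0 hadd hK U (fun φ X Y Z => U_map φ X Y Z) (g : K)).1
  have hWq := (frob_fun hq0 hadd hK W (fun φ X Y Z => W_map φ X Y Z) (g : K)).1
  have hrel : P1 * c1 ^ 4 * U (g : K) ((g : K) ^ q) ((g : K) ^ (q ^ 2)) +
      P2 * c2 ^ 2 * M ^ 2 * W (g : K) ((g : K) ^ q) ((g : K) ^ (q ^ 2)) = 0 := by
    linear_combination M ^ 3 * h6 - M ^ 3 * hv1 - M ^ 3 * hv2 - P1 * hu - P2 * M ^ 2 * hwv
  have hrelq : P1 * c1 ^ 4 * U ((g : K) ^ q) ((g : K) ^ (q ^ 2)) (g : K) +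
      P2 * c2 ^ 2 * M ^ 2 * W ((g : K) ^ q) ((g : K) ^ (q ^ 2)) (g : K) = 0 := by
    have h7 := congrArg (fun x => x ^ q) hrel
    simp only [hadd, mul_pow, hUq, hWq, hP1q, hP2q, zero_pow hq0] at h7
    have sw : ∀ (x : K) (i : ℕ), (x ^ i) ^ q = (x ^ q) ^ i := by
      intro x i
      rw [← pow_mul, ← pow_mul, mul_comm]
    rw [sw c1 4, sw c2 2, sw M 2, hc1, hc2, hMq] at h7
    exact h7
  have hfin : P1 * c1 ^ 4 * G (g : K) ((g : K) ^ q) ((g : K) ^ (q ^ 2)) = 0 := by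
    unfold G
    linear_combination W ((g : K) ^ q) ((g : K) ^ (q ^ 2)) (g : K) * hrel -
      W (g : K) ((g : K) ^ q) ((g : K) ^ (q ^ 2)) * hrelq
  exact (mul_eq_zero.1 hfin).resolve_left (mul_ne_zero hP10 (pow_ne_zero _ hc10))

end Pool.Agent.Sgq
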