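import Pool.Agent.Sgq.Line

/-!
# The relation of level one, MP_1e2239_co
-/

open Finset

namespace Pool.Agent.Sgq

open Pool.Agent.Sgp

variable {K : Type*} [Field K]

theorem expo1 (q a b c : ℕ) (hq : 2 ≤ q) (h : a + b + c + 1 = 2 * q - 2) :
    ¬ (q ^ 3 - 1 ∣ a + q * b + q ^ 2 * c + 1) := by
  rintro ⟨t, ht⟩
  have hq' : (2 : ℤ) ≤ q := by exact_mod_cast hq
  have h1 : (1 : ℕ) ≤ q ^ 3 := Nat.one_le_pow _ _ (by omega)
  have e : (a : ℤ) + q * b + (q : ℤ) ^ 2 * c + 1 = ((q : ℤ) ^ 3 - 1) * t := by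
    have h2 := congrArg (fun n : ℕ => (n : ℤ)) ht
    push_cast [Nat.cast_sub h1] at h2
    exact h2
  have h3 : (a : ℤ) + b + c + 1 = 2 * q - 2 := by omega
  have ha : (0 : ℤ) ≤ a := by positivity
  have hb : (0 : ℤ) ≤ b := by positivity
  have hc : (0 : ℤ) ≤ c := by positivity
  have e2 : ((q : ℤ) - 1) * (2 + b + (q + 1) * c) = ((q : ℤ) - 1) * ((q ^ 2 + q + 1) * t) := by
    linear_combination e - h3
  have e3 : 2 + (b : ℤ) + (q + 1) * c = (q ^ 2 + q + 1) * t :=
    mul_left_cancel₀ (by omega) e2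
  have ht1 : t = 1 := by
    have h4 : 0 < (q ^ 2 + q + 1 : ℤ) * t := by
      rw [← e3]; positivity
    have h5 : (0 : ℤ) < t := by
      by_contra hcon
      have : (t : ℤ) = 0 := by omega
      rw [this] at h4
      simp at h4
    by_contra hne
    have h6 : (2 : ℤ) ≤ t := by omega
    have h7 : (q ^ 2 + q + 1 : ℤ) * 2 ≤ (q ^ 2 + q + 1 : ℤ) * t :=
      mul_le_mul_of_nonneg_left h6 (by positivity)
    have h8 : 2 + (b : ℤ) + (q + 1) * c ≤ 2 + (q + 1) * (2 * q - 3) := by
      nlinarith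
    nlinarith
  rw [ht1] at e3
  have hcq : (c : ℤ) ≤ q - 1 := by
    by_contra hcon
    have : (q : ℤ) ≤ c := by omega
    push_cast at e3
    nlinarith
  push_cast at e3
  nlinarith

/-- LEVEL ONE. -/
theorem sum_zero [Fintype K] [DecidableEq K] {q : ℕ} (hq : 3 ≤ q) (hK : Fintype.card K = q ^ 3) (w : K) :
    ∑ x : Kˣ, (∏ i ∈ range (2 * q - 3), tr q (w ^ i * (x : K))) * (x : K) = 0 := by
  classical
  set L := 2 * q - 3 with hL
  have hstep : ∀ x : Kˣ, (∏ i ∈ range L, tr q (w ^ i * (x : K))) * (x : K) =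
      ∑ T ∈ (range L).powerset, ∑ S ∈ T.powerset,
        (w ^ (∑ i ∈ S, i) * w ^ (q * ∑ i ∈ T \ S, i) * w ^ (q ^ 2 * ∑ i ∈ range L \ T, i)) *
          (x : K) ^ ((S.card + q * (T \ S).card + q ^ 2 * (range L \ T).card) + 1) := by
    intro x
    rw [prod_expand, sum_mul]
    apply sum_congr rfl
    intro T _
    rw [sum_mul]
    apply sum_congr rfl
    intro S _
    rw [pow_succ (x : K)]
    ring
  rw [sum_congr rfl (fun x _ => hstep x), sum_comm]
  apply sum_eq_zero
  intro T hT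
  rw [sum_comm]
  apply sum_eq_zero
  intro S hS
  rw [← mul_sum]
  have hs := FiniteField.sum_pow_units K
    ((S.card + q * (T \ S).card + q ^ 2 * (range L \ T).card) + 1)
  rw [hs, hK, if_neg, mul_zero]
  have hTL := mem_powerset.1 hT
  have hST := mem_powerset.1 hS
  have hc1 : (T \ S).card = T.card - S.card := card_sdiff_of_subset hST
  have hc2 : (range L \ T).card = L - T.card := by rw [card_sdiff_of_subset hTL, card_range]
  have hl1 : T.card ≤ L := by simpa using card_le_card hTL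
  have hl2 : S.card ≤ T.card := card_le_card hST
  exact expo1 q S.card (T \ S).card (range L \ T).card (by omega) (by omega)

end Pool.Agent.Sgq
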